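import Pool.Agent.MP_ee26cf_co.LI.Avg

set_option autoImplicit false

namespace Pool.Agent.MP_ee26cf_co.LI

lemma arith {K δ t0 t1 t2 f0 f1 f2 : ℝ} (hK : 1 ≤ K) (hδ : 0 ≤ δ) (h0 : 0 < t0) (h01 : t0 ≤ t1)
    (h12 : t1 ≤ t2) (htp : t0 * t2 ≤ t1 ^ 2) (hgap : t0 ≤ (1 - 1 / (5 * K)) * t1)
    (a0 : |f0 - t0| ≤ δ * t0) (a1 : |f1 - t1| ≤ δ * t0) (a2 : |f2 - t2| ≤ δ * t0)
    (hn : 400 * K ^ 3 * δ < 1) : K * (f0 * f2 - f1 ^ 2) < (f1 - f0) ^ 2 := by
  have hK0 : 0 < K := by linarith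
  have h1 : 0 < t1 := by linarith
  have hK3 : K ≤ K ^ 3 := by
    have : K * 1 ≤ K * K ^ 2 := mul_le_mul_of_nonneg_left (one_le_pow₀ hK) hK0.le
    linarith
  have hKδ : 400 * (K * δ) < 1 := by
    have := mul_le_mul_of_nonneg_right hK3 hδ
    linarith
  have hδ1 : 400 * δ < 1 := by
    have := mul_le_mul_of_nonneg_right hK hδ
    linarith
  have d01 : δ * t0 ≤ δ * t1 := mul_le_mul_of_nonneg_left h01 hδ
  have d12 : δ * t1 ≤ δ * t2 := mul_le_mul_of_nonneg_left h12 hδ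
  have dt : δ * t0 ≤ t0 := mul_le_of_le_one_left h0.le (by linarith)
  obtain ⟨a0l, a0u⟩ := abs_le.1 a0
  obtain ⟨a1l, _⟩ := abs_le.1 a1
  obtain ⟨a2l, a2u⟩ := abs_le.1 a2
  have b0 : f0 ≤ (1 + δ) * t0 := by linarith
  have b2 : f2 ≤ (1 + δ) * t2 := by linarith
  have b1 : (1 - δ) * t1 ≤ f1 := by linarith
  have c02 : f0 * f2 ≤ (1 + δ) ^ 2 * t1 ^ 2 := by
    calc f0 * f2 ≤ ((1 + δ) * t0) * ((1 + δ) * t2) :=
          mul_le_mul b0 b2 (by linarith) (by positivity)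
      _ = (1 + δ) ^ 2 * (t0 * t2) := by ring
      _ ≤ _ := mul_le_mul_of_nonneg_left htp (by positivity)
  have c1 : ((1 - δ) * t1) ^ 2 ≤ f1 ^ 2 :=
    pow_le_pow_left₀ (mul_nonneg (by linarith) h1.le) b1 2
  have c3 : f0 * f2 - f1 ^ 2 ≤ 4 * δ * t1 ^ 2 := by linarith
  have e1 : 2 * δ ≤ 1 / (10 * K) := by
    rw [le_div_iff₀ (by positivity)]
    linarith
  have e2 : 1 / (5 * K) = 2 * (1 / (10 * K)) := by field_simp; ring
  have c4 : 1 / (10 * K) * t1 ≤ f1 - f0 := by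
    have := mul_le_mul_of_nonneg_right e1 h1.le
    rw [e2] at hgap
    linarith
  have c5 : (1 / (10 * K) * t1) ^ 2 ≤ (f1 - f0) ^ 2 := pow_le_pow_left₀ (by positivity) c4 2
  have c6 : K * (4 * δ) < (1 / (10 * K)) ^ 2 := by
    rw [div_pow, lt_div_iff₀ (by positivity)]
    linarith
  have c7 := mul_lt_mul_of_pos_right c6 (pow_pos h1 2)
  have c8 := mul_le_mul_of_nonneg_left c3 hK0.le
  linarith

lemma an {Q : ℝ → ℝ} (hQ : Continuous Q) {c ε : ℝ} {k : ℕ} (pos : 0 < Q c)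
    (low : ∀ s, 0 ≤ s → s ≤ c → |Q s| ≤ Q c) (mono : ∀ x y, c ≤ x → x ≤ y → Q x ≤ Q y)
    (tp : ∀ x y d, c ≤ x → x ≤ y → 0 ≤ d → Q (y + d) * Q x ≤ Q (x + d) * Q y)
    (gap : ∀ s, c ≤ s → s ≤ k → Q s ≤ (1 - 1 / (5 * ((k:ℝ) + 1))) * Q (s + 1))
    (hε : Real.exp (3 * c) / 3 ^ k ≤ ε) (hn : 800 * ((k:ℝ) + 1) ^ 3 * ε < 1) :
    ((k:ℝ) + 1) * (av^[k] Q 0 * av^[k] Q 2 - av^[k] Q 1 ^ 2) < (av^[k] Q 1 - av^[k] Q 0) ^ 2 := by
  classical
  let T : ℝ → ℝ := fun s => if c ≤ s then Q s else 0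
  let E : ℝ → ℝ := fun s => Real.exp (3 * (c - s))
  have hK : (1:ℝ) ≤ (k:ℝ) + 1 := by simp
  have Qp : ∀ s, c ≤ s → 0 < Q s := fun s hs => pos.trans_le (mono c s le_rfl hs)
  have T0 : ∀ s, 0 ≤ T s := fun s => by
    by_cases h : c ≤ s
    · simp only [T, if_pos h]; exact (Qp s h).le
    · simp only [T, if_neg h]; exact le_rfl
  have hT : Good T := by
    refine ⟨fun x y hxy => ?_, T0, fun x y d hxy hd => ?_⟩
    · by_cases h : c ≤ x
      · simp only [T, if_pos h, if_pos (h.trans hxy)]; exact mono x y h hxy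
      · have := T0 y
        simp only [T, if_neg h] at this ⊢
        exact this
    · by_cases h : c ≤ x
      · simp only [T, if_pos h, if_pos (h.trans hxy), if_pos (show c ≤ y + d by linarith),
          if_pos (show c ≤ x + d by linarith)]
        exact tp x y d h hxy hd
      · have e : T x = 0 := by simp only [T, if_neg h]
        rw [e, mul_zero]
        exact mul_nonneg (T0 _) (T0 _)
  have lT : Loc T := Loc.of_mono hT.mono
  have lQ : Loc Q := Loc.of_cont hQ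
  have lE : Loc E := Loc.of_cont (by fun_prop)
  have l1 : Loc (fun _ => (1:ℝ)) := Loc.of_cont continuous_const
  have E0 : ∀ s, 0 < E s := fun s => Real.exp_pos _
  have E1 : ∀ s, ¬ c ≤ s → 1 ≤ E s := fun s hs => Real.one_le_exp (by linarith [not_le.1 hs])
  have hE : ∀ x, 0 ≤ x → av^[k] E x ≤ ε := fun x hx => by
    refine (iter_exp k c x).trans (le_trans ?_ hε)
    exact div_le_div_of_nonneg_right (Real.exp_le_exp.2 (by linarith)) (by positivity)
  have ε0 : 0 ≤ ε := le_trans (by positivity) hε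
  have diff : ∀ s, 0 ≤ s → |Q s - T s| ≤ Q c * E s := fun s hs => by
    by_cases h : c ≤ s
    · simp only [T, if_pos h, sub_self, abs_zero]; exact (mul_pos pos (E0 s)).le
    · simp only [T, if_neg h, sub_zero]
      exact (low s hs (not_le.1 h).le).trans (le_mul_of_one_le_right pos.le (E1 s h))
  have near : ∀ x, 0 ≤ x → |av^[k] Q x - av^[k] T x| ≤ Q c * ε := fun x hx => by
    have u1 := iter_le k lQ (lT.lin lE 1 (Q c)) x fun s h _ => by
      have := (abs_le.1 (diff s (hx.trans h))).2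
      linarith
    have u2 := iter_le k (lT.lin lE 1 (-Q c)) lQ x fun s h _ => by
      have := (abs_le.1 (diff s (hx.trans h))).1
      linarith
    rw [iter_lin k lT lE] at u1 u2
    have := mul_le_mul_of_nonneg_left (hE x hx) pos.le
    exact abs_le.2 ⟨by linarith, by linarith⟩
  have hε1 : 800 * ε < 1 := by
    have := mul_le_mul_of_nonneg_right (one_le_pow₀ (n := 3) hK) ε0
    linarith
  have big : Q c / 2 ≤ av^[k] T 0 := by
    have u := iter_le k (l1.lin lE (Q c) (-Q c)) lT 0 fun s _ _ => by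
      by_cases h : c ≤ s
      · have := mono c s le_rfl h
        have := mul_pos pos (E0 s)
        simp only [T, if_pos h]
        linarith
      · have := mul_le_mul_of_nonneg_left (E1 s h) pos.le
        simp only [T, if_neg h]
        linarith
    rw [iter_lin k l1 lE, iter_one] at u
    have h1 := mul_le_mul_of_nonneg_left (hE 0 le_rfl) pos.le
    have h2 := mul_le_mul_of_nonneg_left (show ε ≤ 1 / 2 by linarith) pos.le
    linarith
  have hG := hT.iter k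
  have η0 : 0 ≤ 1 - 1 / (5 * ((k:ℝ) + 1)) := by
    rw [sub_nonneg, div_le_one (by positivity)]
    linarith
  have hgap : av^[k] T 0 ≤ (1 - 1 / (5 * ((k:ℝ) + 1))) * av^[k] T 1 := by
    have u := iter_le k lT ((lT.shift 1).lin lT (1 - 1 / (5 * ((k:ℝ) + 1))) 0) 0 fun s _ hs => by
      by_cases h : c ≤ s
      · have := gap s h (by simpa using hs)
        simp only [T, if_pos h, if_pos (show c ≤ s + 1 by linarith)]
        linarith
      · have := mul_nonneg η0 (T0 (s + 1))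
        have e : T s = 0 := by simp only [T, if_neg h]
        rw [e]
        linarith
    rw [iter_lin k (lT.shift 1) lT, iter_shift] at u
    simpa using u
  have nb : Q c * ε ≤ 2 * ε * av^[k] T 0 := by
    have := mul_le_mul_of_nonneg_left big ε0
    linarith
  have htp := hG.tp 0 1 1 zero_le_one zero_le_one
  rw [zero_add, one_add_one_eq_two] at htp
  exact arith (δ := 2 * ε) hK (by linarith) (by linarith) (hG.mono zero_le_one)
    (hG.mono one_le_two) (by linarith) hgap ((near 0 le_rfl).trans nb)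
    ((near 1 zero_le_one).trans nb) ((near 2 zero_le_two).trans nb) (by linarith)

lemma nsq (s : ℝ) (r : ℂ) : ‖(s:ℂ) - r‖ ^ 2 = (s - r.re) ^ 2 + r.im ^ 2 := by
  rw [Complex.sq_norm, Complex.normSq_apply]
  simp only [Complex.sub_re, Complex.ofReal_re, Complex.sub_im, Complex.ofReal_im]
  ring

lemma fac_mono {R s s' : ℝ} {r : ℂ} (hr : ‖r‖ ≤ R) (h0 : 0 ≤ s) (hs : s ≤ s') (h : 2 * R ≤ s') :
    ‖(s:ℂ) - r‖ ≤ ‖(s':ℂ) - r‖ := by
  rw [← sq_le_sq₀ (norm_nonneg _) (norm_nonneg _), nsq, nsq]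
  have h1 := (Complex.re_le_norm r).trans hr
  have := mul_nonneg (sub_nonneg.2 hs) (show 0 ≤ s' + s - 2 * r.re by linarith)
  linarith

lemma fac_tp {R x y d : ℝ} {r : ℂ} (hr : ‖r‖ ≤ R) (hx : 2 * R ≤ x) (hxy : x ≤ y) (hd : 0 ≤ d) :
    ‖((y + d : ℝ):ℂ) - r‖ * ‖(x:ℂ) - r‖ ≤ ‖((x + d : ℝ):ℂ) - r‖ * ‖(y:ℂ) - r‖ := by
  rw [← sq_le_sq₀ (by positivity) (by positivity), mul_pow, mul_pow, nsq, nsq, nsq, nsq]
  have h1 := (Complex.re_le_norm r).trans hr
  have h2 := (Complex.abs_im_le_norm r).trans hr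
  have hR : 0 ≤ R := (norm_nonneg _).trans hr
  have h3 : r.im ^ 2 ≤ (x - r.re) * (y - r.re) := by
    rw [← sq_abs, sq]
    exact mul_le_mul (by linarith) (by linarith) (abs_nonneg _) (by linarith)
  have h4 : 0 ≤ d * (x - r.re + (y - r.re)) := mul_nonneg hd (by linarith)
  have h5 := mul_nonneg (mul_nonneg hd (sub_nonneg.2 hxy))
    (show 0 ≤ 2 * ((x - r.re) * (y - r.re)) + d * (x - r.re + (y - r.re)) - 2 * r.im ^ 2 by
      linarith)
  linarith

lemma fac_gap {R s K : ℝ} {r : ℂ} (hr : ‖r‖ ≤ R) (hs : 2 * R ≤ s) (hK : s + 1 ≤ K) :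
    ‖(s:ℂ) - r‖ ≤ (1 - 1 / (5 * K)) * ‖((s + 1 : ℝ):ℂ) - r‖ := by
  have hR : 0 ≤ R := (norm_nonneg _).trans hr
  have hK0 : 0 < K := by linarith
  have h1 := (Complex.re_le_norm r).trans hr
  have η0 : 0 ≤ 1 - 1 / (5 * K) := by
    rw [sub_nonneg, div_le_one (by positivity)]
    linarith
  rw [← sq_le_sq₀ (norm_nonneg _) (by positivity), mul_pow]
  have e : ‖(s:ℂ) - r‖ ^ 2 = ‖((s + 1 : ℝ):ℂ) - r‖ ^ 2 - (2 * (s - r.re) + 1) := by
    rw [nsq, nsq]; ring
  have h2 : ‖((s + 1 : ℝ):ℂ) - r‖ ≤ 3 / 2 * (s + 1) := by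
    refine (norm_sub_le _ _).trans ?_
    rw [Complex.norm_real, Real.norm_of_nonneg (by linarith)]
    linarith
  have h3 := pow_le_pow_left₀ (norm_nonneg _) h2 2
  rw [e]
  have hN0 : 0 ≤ ‖((s + 1 : ℝ):ℂ) - r‖ ^ 2 := sq_nonneg _
  generalize ‖((s + 1 : ℝ):ℂ) - r‖ ^ 2 = N at h3 hN0 ⊢
  have h4 : 1 / (5 * K) * (s + 1) ≤ 1 / 5 := by
    rw [div_mul_eq_mul_div, div_le_div_iff₀ (by positivity) (by positivity)]
    linarith
  have h5 : 0 ≤ 1 / (5 * K) := by positivity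
  generalize 1 / (5 * K) = η at *
  have h6 := mul_le_mul_of_nonneg_left h3 h5
  have h7 := mul_le_mul_of_nonneg_right h4 (show 0 ≤ s + 1 by linarith)
  have h8 := mul_nonneg (sq_nonneg η) hN0
  linarith

/-- Product of the distances from a real point to the members of a multiset. -/
noncomputable def dp (S : Multiset ℂ) (s : ℝ) : ℝ := (S.map fun r => ‖(s:ℂ) - r‖).prod

lemma dp_cons (a : ℂ) (S : Multiset ℂ) (s : ℝ) : dp (a ::ₘ S) s = ‖(s:ℂ) - a‖ * dp S s := by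
  simp [dp]

lemma dp_nonneg (S : Multiset ℂ) (s : ℝ) : 0 ≤ dp S s :=
  Multiset.prod_map_nonneg fun _ _ => norm_nonneg _

lemma dp_norm (S : Multiset ℂ) (s : ℝ) : ‖(S.map fun r => (s:ℂ) - r).prod‖ = dp S s := by
  induction S using Multiset.induction_on with
  | empty => simp [dp]
  | cons a S ih => rw [Multiset.map_cons, Multiset.prod_cons, norm_mul, ih, dp_cons]

lemma dp_mono {R s s' : ℝ} (h0 : 0 ≤ s) (hs : s ≤ s') (h : 2 * R ≤ s') (S : Multiset ℂ)
    (hS : ∀ r ∈ S, ‖r‖ ≤ R) : dp S s ≤ dp S s' := by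
  induction S using Multiset.induction_on with
  | empty => simp [dp]
  | cons a S ih =>
    rw [dp_cons, dp_cons]
    exact mul_le_mul (fac_mono (hS a (by simp)) h0 hs h) (ih fun r hr => hS r (by simp [hr]))
      (dp_nonneg _ _) (norm_nonneg _)

lemma dp_tp {R x y d : ℝ} (hx : 2 * R ≤ x) (hxy : x ≤ y) (hd : 0 ≤ d) (S : Multiset ℂ)
    (hS : ∀ r ∈ S, ‖r‖ ≤ R) : dp S (y + d) * dp S x ≤ dp S (x + d) * dp S y := by
  induction S using Multiset.induction_on with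
  | empty => simp [dp]
  | cons a S ih =>
    rw [dp_cons, dp_cons, dp_cons, dp_cons, mul_mul_mul_comm, mul_mul_mul_comm ‖((x + d : ℝ):ℂ) - a‖]
    exact mul_le_mul (fac_tp (hS a (by simp)) hx hxy hd) (ih fun r hr => hS r (by simp [hr]))
      (mul_nonneg (dp_nonneg _ _) (dp_nonneg _ _)) (by positivity)

lemma dp_gap {R s K : ℝ} (hR : 0 ≤ R) (hs : 2 * R ≤ s) (hK : s + 1 ≤ K) (S : Multiset ℂ)
    (hS : ∀ r ∈ S, ‖r‖ ≤ R) (hne : S ≠ 0) : dp S s ≤ (1 - 1 / (5 * K)) * dp S (s + 1) := by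
  obtain ⟨a, ha⟩ := Multiset.exists_mem_of_ne_zero hne
  obtain ⟨S', rfl⟩ := Multiset.exists_cons_of_mem ha
  rw [dp_cons, dp_cons, ← mul_assoc]
  have h1 := fac_gap (hS a (by simp)) hs hK
  exact mul_le_mul h1 (dp_mono (by linarith) (by linarith) (by linarith) S'
    fun r hr => hS r (by simp [hr])) (dp_nonneg _ _) ((norm_nonneg _).trans h1)

open Polynomial

lemma abs_eval (Q : ℝ[X]) (s : ℝ) :
    |Q.eval s| = |Q.leadingCoeff| * dp (Q.map (algebraMap ℝ ℂ)).roots s := by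
  have h := (IsAlgClosed.splits (Q.map (algebraMap ℝ ℂ))).eval_eq_prod_roots (s:ℂ)
  have e : (Q.map (algebraMap ℝ ℂ)).eval (s:ℂ) = ((Q.eval s : ℝ) : ℂ) :=
    eval_map_apply (algebraMap ℝ ℂ) s
  rw [e, leadingCoeff_map] at h
  have h2 := congrArg norm h
  rw [norm_mul, dp_norm] at h2
  simpa using h2

lemma an_pos {Q : ℝ[X]} {R ε : ℝ} {k : ℕ} (hR : 0 < R) (hd : 1 ≤ Q.natDegree)
    (hr : ∀ z : ℂ, aeval z Q = 0 → ‖z‖ ≤ R) (pos : 0 < Q.eval (2 * R))
    (hε : Real.exp (3 * (2 * R)) / 3 ^ k ≤ ε) (hn : 800 * ((k:ℝ) + 1) ^ 3 * ε < 1) :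
    ((k:ℝ) + 1) * (av^[k] (fun s => Q.eval s) 0 * av^[k] (fun s => Q.eval s) 2
      - av^[k] (fun s => Q.eval s) 1 ^ 2)
      < (av^[k] (fun s => Q.eval s) 1 - av^[k] (fun s => Q.eval s) 0) ^ 2 := by
  have hS : ∀ r ∈ (Q.map (algebraMap ℝ ℂ)).roots, ‖r‖ ≤ R := fun r h => by
    refine hr r ?_
    rw [← eval_map_algebraMap]
    exact (mem_roots'.1 h).2
  have hne : (Q.map (algebraMap ℝ ℂ)).roots ≠ 0 := by
    rw [← Multiset.card_pos, IsAlgClosed.card_roots_eq_natDegree, natDegree_map]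
    exact hd
  have hp : ∀ s, 2 * R ≤ s → 0 < Q.eval s := fun s hs => by
    by_contra h
    obtain ⟨x, hx, hx0⟩ := intermediate_value_Icc' hs Q.continuous.continuousOn
      (show (0:ℝ) ∈ Set.Icc (Q.eval s) (Q.eval (2 * R)) from ⟨not_lt.1 h, pos.le⟩)
    have h1 := hr (x:ℂ) (by
      have : aeval (algebraMap ℝ ℂ x) Q = algebraMap ℝ ℂ (aeval x Q) := aeval_algebraMap_apply _ _ _
      rw [coe_aeval_eq_eval, show Q.eval x = 0 from hx0, map_zero] at this
      exact this)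
    rw [Complex.norm_real, Real.norm_of_nonneg (by linarith [hx.1])] at h1
    linarith [hx.1]
  have ev : ∀ s, 2 * R ≤ s → Q.eval s = |Q.leadingCoeff| * dp (Q.map (algebraMap ℝ ℂ)).roots s :=
    fun s hs => by rw [← abs_eval, abs_of_pos (hp s hs)]
  have l0 : 0 ≤ |Q.leadingCoeff| := abs_nonneg _
  refine an Q.continuous pos (fun s h0 hs => ?_) (fun x y hx hxy => ?_) (fun x y d hx hxy hd => ?_)
    (fun s hs hk => ?_) hε hn
  · rw [abs_eval, ev _ le_rfl]
    exact mul_le_mul_of_nonneg_left (dp_mono h0 hs le_rfl _ hS) l0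
  · rw [ev x hx, ev y (hx.trans hxy)]
    exact mul_le_mul_of_nonneg_left (dp_mono (by linarith) hxy (hx.trans hxy) _ hS) l0
  · rw [ev x hx, ev y (hx.trans hxy), ev (x + d) (by linarith), ev (y + d) (by linarith),
      mul_mul_mul_comm, mul_mul_mul_comm _ (dp _ (x + d))]
    exact mul_le_mul_of_nonneg_left (dp_tp hx hxy hd _ hS) (mul_nonneg l0 l0)
  · rw [ev s hs, ev (s + 1) (by linarith), mul_left_comm]
    exact mul_le_mul_of_nonneg_left (dp_gap hR.le hs (by linarith) _ hS hne) l0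

lemma roots_deriv {Q : ℝ[X]} {R : ℝ} (hd : 1 ≤ Q.natDegree)
    (hr : ∀ z : ℂ, aeval z Q = 0 → ‖z‖ ≤ R) :
    ∀ z : ℂ, aeval z (derivative Q) = 0 → ‖z‖ ≤ R := by
  intro z hz
  have hd' : 0 < (Q.map (algebraMap ℝ ℂ)).natDegree := by rw [natDegree_map]; exact hd
  have h := rootSet_derivative_subset_convexHull_rootSet (natDegree_pos_iff_degree_pos.1 hd')
    (a := z) (by
      rw [mem_rootSet, coe_aeval_eq_eval, derivative_map, eval_map_algebraMap]
      refine ⟨?_, hz⟩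
      rw [← derivative_map, Ne, derivative_eq_zero]
      exact hd'.ne')
  have h2 := convexHull_min (s := (Q.map (algebraMap ℝ ℂ)).rootSet ℂ)
    (t := Metric.closedBall (0:ℂ) R) (fun w hw => by
      rw [mem_rootSet, coe_aeval_eq_eval, eval_map_algebraMap] at hw
      simpa using hr w hw.2) (convex_closedBall _ _) h
  simpa using h2

lemma roots_iter {P : ℝ[X]} {R : ℝ} (hr : ∀ z : ℂ, aeval z P = 0 → ‖z‖ ≤ R) (k : ℕ)
    (hk : k ≤ P.natDegree) : (derivative^[k] P).natDegree = P.natDegree - k ∧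
      ∀ z : ℂ, aeval z (derivative^[k] P) = 0 → ‖z‖ ≤ R := by
  induction k with
  | zero => exact ⟨rfl, hr⟩
  | succ k ih =>
    obtain ⟨h1, h2⟩ := ih (by omega)
    rw [Function.iterate_succ_apply']
    exact ⟨by rw [natDegree_derivative, h1]; omega, roots_deriv (by omega) h2⟩

lemma numeric (k : ℕ) (hk : 60 ≤ k) : 800 * ((k:ℝ) + 1) ^ 3 * (17 / 25) ^ k < 1 := by
  induction k, hk using Nat.le_induction with
  | base => norm_num
  | succ k hk ih =>
    have h : (60:ℝ) ≤ k := by exact_mod_cast hk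
    have h1 : ((k:ℝ) + 1 + 1) ^ 3 ≤ (62 / 61 * ((k:ℝ) + 1)) ^ 3 :=
      pow_le_pow_left₀ (by linarith) (by linarith) 3
    have h2 : (0:ℝ) < (17 / 25) ^ k := by positivity
    have h3 := mul_le_mul_of_nonneg_right h1 h2.le
    have h4 : (0:ℝ) ≤ ((k:ℝ) + 1) ^ 3 * (17 / 25) ^ k := by positivity
    push_cast
    rw [pow_succ (17 / 25 : ℝ) k]
    linarith

lemma exp_bound {D k : ℕ} (hk : 60 * D ≤ k) :
    Real.exp (3 * (2 * (7 * (D:ℝ)))) / 3 ^ k ≤ (17 / 25) ^ k := by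
  have h1 : Real.exp (7 / 10) ≤ 51 / 25 := by
    refine le_of_pow_le_pow_left₀ (n := 10) (by norm_num) (by norm_num) ?_
    rw [← Real.exp_nat_mul]
    have e : ((10:ℕ):ℝ) * (7 / 10) = (7:ℕ) * 1 := by norm_num
    rw [e, Real.exp_nat_mul]
    refine (pow_le_pow_left₀ (Real.exp_pos _).le Real.exp_one_lt_d9.le 7).trans ?_
    norm_num
  have h2 : (60:ℝ) * D ≤ k := by exact_mod_cast hk
  rw [div_le_iff₀ (by positivity), ← mul_pow]
  calc Real.exp (3 * (2 * (7 * (D:ℝ)))) ≤ Real.exp (k * (7 / 10)) :=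
        Real.exp_le_exp.2 (by linarith)
    _ = Real.exp (7 / 10) ^ k := Real.exp_nat_mul _ _
    _ ≤ _ := pow_le_pow_left₀ (Real.exp_pos _).le (by linarith) k

/-- The analytic statement: forward differences at zero of a real polynomial whose roots lie in
the disc of radius `7 D`. -/
theorem poly_an {P : ℝ[X]} {D k : ℕ} (hD : 1 ≤ D) (hk : 60 * D ≤ k) (hd : k + 1 ≤ P.natDegree)
    (hr : ∀ z : ℂ, aeval z P = 0 → ‖z‖ ≤ 7 * (D:ℝ)) :
    ((k:ℝ) + 1) * ((fwdDiff (1:ℝ))^[k] (fun s => P.eval s) 0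
        * (fwdDiff (1:ℝ))^[k + 2] (fun s => P.eval s) 0)
      < ((k:ℝ) + 2) * (fwdDiff (1:ℝ))^[k + 1] (fun s => P.eval s) 0 ^ 2 := by
  have hD' : (1:ℝ) ≤ D := by exact_mod_cast hD
  have hR : 0 < 7 * (D:ℝ) := by linarith
  obtain ⟨h1, h2⟩ := roots_iter hr k (by omega)
  have hn := numeric k (by omega)
  have hε := exp_bound hk
  have key : ((k:ℝ) + 1) * (av^[k] (fun s => (derivative^[k] P).eval s) 0
      * av^[k] (fun s => (derivative^[k] P).eval s) 2
      - av^[k] (fun s => (derivative^[k] P).eval s) 1 ^ 2)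
      < (av^[k] (fun s => (derivative^[k] P).eval s) 1
        - av^[k] (fun s => (derivative^[k] P).eval s) 0) ^ 2 := by
    generalize derivative^[k] P = Q at h1 h2
    rcases lt_trichotomy 0 (Q.eval (2 * (7 * (D:ℝ)))) with h | h | h
    · exact an_pos hR (by omega) h2 h hε hn
    · exfalso
      have h3 := h2 ((2 * (7 * (D:ℝ)) : ℝ) : ℂ) (by
        have : aeval (algebraMap ℝ ℂ (2 * (7 * (D:ℝ)))) Q
          = algebraMap ℝ ℂ (aeval (2 * (7 * (D:ℝ))) Q) := aeval_algebraMap_apply _ _ _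
        rw [coe_aeval_eq_eval, ← h, map_zero] at this
        exact this)
      rw [Complex.norm_real, Real.norm_of_nonneg (by linarith)] at h3
      linarith
    · have h3 := an_pos (Q := -Q) hR (by rw [natDegree_neg]; omega)
        (fun z hz => h2 z (by simpa using hz)) (by simpa using h) hε hn
      have l : Loc (fun s => Q.eval s) := Loc.of_cont Q.continuous
      have e : ∀ x, av^[k] (fun s => (-Q).eval s) x = -av^[k] (fun s => Q.eval s) x := fun x => by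
        have := iter_lin k l l (-1) 0 x
        simpa using this
      rw [e, e, e] at h3
      linarith
  rw [iter_deriv] at key
  rw [Function.iterate_succ_apply' _ (k + 1), Function.iterate_succ_apply' _ k]
  generalize (fwdDiff (1:ℝ))^[k] (fun s => P.eval s) = φ at key ⊢
  simp only [fwdDiff, zero_add, one_add_one_eq_two]
  linarith

end Pool.Agent.MP_ee26cf_co.LI
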