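import Mathlib

set_option autoImplicit false

namespace Pool.Agent.MP_ee26cf_co.LI

open MeasureTheory (volume)
open intervalIntegral

/-- Average over the window of length one. -/
noncomputable def av (f : ℝ → ℝ) (x : ℝ) : ℝ := ∫ u in x..(x + 1), f u

/-- Integrable on every bounded interval. -/
def Loc (f : ℝ → ℝ) : Prop := ∀ a b, IntervalIntegrable f volume a b

lemma Loc.of_cont {f : ℝ → ℝ} (hf : Continuous f) : Loc f := fun a b => hf.intervalIntegrable a b

lemma Loc.of_mono {f : ℝ → ℝ} (hf : Monotone f) : Loc f := fun _ _ => hf.intervalIntegrable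

lemma Loc.cont {f : ℝ → ℝ} (hf : Loc f) : Continuous (av f) := by
  have h := intervalIntegral.continuous_primitive hf 0
  have e : av f = fun x => (∫ u in (0:ℝ)..(x + 1), f u) - ∫ u in (0:ℝ)..x, f u := by
    funext x
    rw [av, integral_interval_sub_left (hf _ _) (hf _ _)]
  rw [e]
  exact (h.comp (continuous_id.add continuous_const)).sub h

lemma Loc.step {f : ℝ → ℝ} (hf : Loc f) : Loc (av f) := Loc.of_cont hf.cont

lemma Loc.shift {f : ℝ → ℝ} (hf : Loc f) (d : ℝ) : Loc (fun s => f (s + d)) := fun a b => by
  simpa using (hf (a + d) (b + d)).comp_add_right d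

lemma Loc.lin {f g : ℝ → ℝ} (hf : Loc f) (hg : Loc g) (a c : ℝ) :
    Loc (fun s => a * f s + c * g s) := fun x y =>
  ((hf x y).const_mul a).add ((hg x y).const_mul c)

lemma av_shift (f : ℝ → ℝ) (d : ℝ) : av (fun s => f (s + d)) = fun x => av f (x + d) := by
  funext x
  unfold av
  rw [integral_comp_add_right (fun s => f s) d]
  congr 1
  ring

lemma iter_shift (k : ℕ) : ∀ (f : ℝ → ℝ) (d x : ℝ),
    av^[k] (fun s => f (s + d)) x = av^[k] f (x + d) := by
  induction k with
  | zero => intro f d x; rfl
  | succ k ih =>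
    intro f d x
    rw [Function.iterate_succ_apply, Function.iterate_succ_apply, av_shift, ih]

lemma av_lin {f g : ℝ → ℝ} (hf : Loc f) (hg : Loc g) (a c : ℝ) :
    av (fun s => a * f s + c * g s) = fun x => a * av f x + c * av g x := by
  funext x
  unfold av
  rw [integral_add ((hf _ _).const_mul a) ((hg _ _).const_mul c), integral_const_mul,
    integral_const_mul]

lemma iter_lin (k : ℕ) : ∀ {f g : ℝ → ℝ}, Loc f → Loc g → ∀ (a c x : ℝ),
    av^[k] (fun s => a * f s + c * g s) x = a * av^[k] f x + c * av^[k] g x := by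
  induction k with
  | zero => intro f g _ _ a c x; rfl
  | succ k ih =>
    intro f g hf hg a c x
    rw [Function.iterate_succ_apply, Function.iterate_succ_apply, Function.iterate_succ_apply,
      av_lin hf hg, ih hf.step hg.step]

lemma iter_le (k : ℕ) : ∀ {f g : ℝ → ℝ}, Loc f → Loc g → ∀ x : ℝ,
    (∀ s, x ≤ s → s ≤ x + k → f s ≤ g s) → av^[k] f x ≤ av^[k] g x := by
  induction k with
  | zero => intro f g _ _ x h; exact h x le_rfl (by simp)
  | succ k ih =>
    intro f g hf hg x h
    rw [Function.iterate_succ_apply, Function.iterate_succ_apply]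
    refine ih hf.step hg.step x fun s h1 h2 => ?_
    refine integral_mono_on (by linarith) (hf _ _) (hg _ _) fun u hu => h u (h1.trans hu.1) ?_
    have := hu.2
    push_cast
    linarith

lemma iter_one (k : ℕ) (x : ℝ) : av^[k] (fun _ => (1:ℝ)) x = 1 := by
  have : av (fun _ => (1:ℝ)) = fun _ => 1 := by
    funext x; simp [av]
  rw [Function.iterate_fixed this]

lemma av_exp (c x : ℝ) : av (fun s => Real.exp (3 * (c - s))) x ≤ Real.exp (3 * (c - x)) / 3 := by
  have h : ∀ s, HasDerivAt (fun s => -Real.exp (3 * (c - s)) / 3) (Real.exp (3 * (c - s))) s := by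
    intro s
    have h1 : HasDerivAt (fun s : ℝ => 3 * (c - s)) (3 * (-1)) s := by
      simpa using ((hasDerivAt_id s).const_sub c).const_mul 3
    have h2 := (h1.exp.neg).div_const 3
    refine h2.congr_deriv ?_
    ring
  unfold av
  rw [integral_eq_sub_of_hasDerivAt (fun s _ => h s)
    (Continuous.intervalIntegrable (by fun_prop) _ _)]
  have := Real.exp_pos (3 * (c - (x + 1)))
  linarith

lemma iter_exp (k : ℕ) (c : ℝ) : ∀ x : ℝ,
    av^[k] (fun s => Real.exp (3 * (c - s))) x ≤ Real.exp (3 * (c - x)) / 3 ^ k := by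
  have hE : Loc (fun s => Real.exp (3 * (c - s))) := Loc.of_cont (by fun_prop)
  induction k with
  | zero => intro x; simp
  | succ k ih =>
    intro x
    rw [Function.iterate_succ_apply]
    have h1 := iter_le k hE.step (hE.lin hE (1 / 3) 0) x (fun s _ _ => by
      have := av_exp c s
      linarith)
    rw [iter_lin k hE hE] at h1
    have h2 := ih x
    rw [pow_succ, ← div_div]
    linarith

/-- Monotone, nonnegative and log-concave in the two-by-two form. -/
structure Good (f : ℝ → ℝ) : Prop where
  mono : Monotone f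
  nonneg : ∀ s, 0 ≤ f s
  tp : ∀ x y d, x ≤ y → 0 ≤ d → f (y + d) * f x ≤ f (x + d) * f y

lemma cross {f p : ℝ → ℝ} (hf : Loc f) (hp : Loc p)
    (h : ∀ x y, x ≤ y → p y * f x ≤ p x * f y) {a b c e : ℝ} (hab : a ≤ b) (hbc : b ≤ c)
    (hce : c ≤ e) :
    (∫ u in c..e, p u) * (∫ u in a..b, f u) ≤ (∫ u in a..b, p u) * ∫ u in c..e, f u := by
  rw [← integral_mul_const, ← integral_const_mul]
  refine integral_mono_on hce ((hp _ _).mul_const _) ((hf _ _).const_mul _) fun y hy => ?_
  rw [← integral_const_mul, ← integral_mul_const]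
  refine integral_mono_on hab ((hf _ _).const_mul _) ((hp _ _).mul_const _) fun x hx => ?_
  exact h x y (hx.2.trans (hbc.trans hy.1))

lemma Good.step {f : ℝ → ℝ} (hf : Good f) : Good (av f) := by
  have hl : Loc f := Loc.of_mono hf.mono
  refine ⟨fun x y hxy => ?_, fun s => ?_, fun x y d hxy hd => ?_⟩
  · have h := iter_le 1 hl (hl.shift (y - x)) x fun s _ _ => hf.mono (by linarith)
    rw [iter_shift] at h
    simpa using h
  · exact integral_nonneg (by linarith) fun u _ => hf.nonneg u
  · have hp : Loc (fun s => f (s + d)) := hl.shift d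
    have h : ∀ x y, x ≤ y → f (y + d) * f x ≤ f (x + d) * f y := fun x y hxy => hf.tp x y d hxy hd
    have e1 : av f (y + d) = av (fun s => f (s + d)) y := by rw [av_shift]
    have e2 : av f (x + d) = av (fun s => f (s + d)) x := by rw [av_shift]
    rw [e1, e2]
    unfold av
    rcases le_total (x + 1) y with hy | hy
    · exact cross hl hp h (by linarith) hy (by linarith)
    · have a1 := cross hl hp h hxy le_rfl hy
      have a2 := cross hl hp h hxy hy (by linarith : x + 1 ≤ y + 1)
      have a3 := cross hl hp h hy le_rfl (by linarith : x + 1 ≤ y + 1)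
      rw [← integral_add_adjacent_intervals (hl x y) (hl y (x + 1)),
        ← integral_add_adjacent_intervals (hp x y) (hp y (x + 1)),
        ← integral_add_adjacent_intervals (hl y (x + 1)) (hl (x + 1) (y + 1)),
        ← integral_add_adjacent_intervals (hp y (x + 1)) (hp (x + 1) (y + 1))]
      linarith

lemma Good.iter (k : ℕ) : ∀ {f : ℝ → ℝ}, Good f → Good (av^[k] f) := by
  induction k with
  | zero => intro f hf; exact hf
  | succ k ih => intro f hf; rw [Function.iterate_succ_apply]; exact ih hf.step

open Polynomial in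
lemma iter_deriv (P : ℝ[X]) (k : ℕ) :
    av^[k] (fun s => (derivative^[k] P).eval s) = (fwdDiff (1:ℝ))^[k] (fun s => P.eval s) := by
  induction k with
  | zero => rfl
  | succ k ih =>
    funext x
    have hl : Loc (fun s => (derivative^[k] P).eval s) := Loc.of_cont (Polynomial.continuous _)
    have e : av (fun s => (derivative^[k + 1] P).eval s) =
        fun s => 1 * (derivative^[k] P).eval (s + 1) + (-1) * (derivative^[k] P).eval s := by
      funext s
      unfold av
      rw [Function.iterate_succ_apply', integral_eq_sub_of_hasDerivAt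
        (fun u _ => (derivative^[k] P).hasDerivAt u)
        (Continuous.intervalIntegrable (Polynomial.continuous _) _ _)]
      ring
    rw [Function.iterate_succ_apply, e, iter_lin k (hl.shift 1) hl,
      iter_shift k (fun s => (derivative^[k] P).eval s), ih, Function.iterate_succ_apply']
    simp only [fwdDiff]
    ring

end Pool.Agent.MP_ee26cf_co.LI
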