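import Pool.Agent.MP_ee26cf_co.Bridge

set_option autoImplicit false

namespace Pool.Agent.MP_ee26cf_co.LI

open Finset Polynomial

variable {X : Type} [Fintype X] [DecidableEq X]

lemma ptn_ext {P Q : Finpartition (univ : Finset X)} (h : ∀ u v, u ∈ P.part v ↔ u ∈ Q.part v) :
    P = Q := by
  have hp : ∀ v, P.part v = Q.part v := fun v => by
    ext u
    exact h u v
  ext s
  constructor
  · intro hs
    obtain ⟨v, _, rfl⟩ := P.part_surjOn hs
    rw [hp]; exact Q.part_mem.2 (mem_univ v)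
  · intro hs
    obtain ⟨v, _, rfl⟩ := Q.part_surjOn hs
    rw [← hp]; exact P.part_mem.2 (mem_univ v)

open Classical in
/-- Partitions of the vertex set into independent sets. -/
noncomputable def Ind (H : SimpleGraph X) : Finset (Finpartition (univ : Finset X)) :=
  univ.filter fun P => ∀ s ∈ P.parts, H.IsIndepSet (↑s : Set X)

lemma mem_Ind {H : SimpleGraph X} {P : Finpartition (univ : Finset X)} :
    P ∈ Ind H ↔ ∀ s ∈ P.parts, H.IsIndepSet (↑s : Set X) := by
  simp [Ind]

/-- The class of a vertex. -/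
def cls (P : Finpartition (univ : Finset X)) (v : X) : P.parts :=
  ⟨P.part v, P.part_mem.2 (mem_univ v)⟩

lemma cls_eq (P : Finpartition (univ : Finset X)) (u v : X) :
    cls P u = cls P v ↔ u ∈ P.part v := by
  unfold cls
  rw [Subtype.mk.injEq, P.mem_part_iff_part_eq_part (mem_univ _) (mem_univ _)]

lemma cls_surj (P : Finpartition (univ : Finset X)) : Function.Surjective (cls P) := by
  rintro ⟨s, hs⟩
  obtain ⟨v, _, rfl⟩ := P.part_surjOn hs
  exact ⟨v, rfl⟩

lemma exists_ker {α : Type} (H : SimpleGraph X) (c : X → α) (hc : ∀ u v, H.Adj u v → c u ≠ c v) :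
    ∃ P ∈ Ind H, ∀ u v, u ∈ P.part v ↔ c u = c v := by
  classical
  have h : ∀ u v, u ∈ (Finpartition.ofSetoid (Setoid.ker c)).part v ↔ c u = c v := fun u v => by
    rw [Finpartition.mem_part_ofSetoid_iff_rel, Setoid.ker_def, eq_comm]
  refine ⟨Finpartition.ofSetoid (Setoid.ker c), mem_Ind.2 fun s hs => ?_, h⟩
  obtain ⟨w, _, rfl⟩ := (Finpartition.ofSetoid (Setoid.ker c)).part_surjOn hs
  intro u hu v hv _ huv
  exact hc u v huv (((h u w).1 hu).trans ((h v w).1 hv).symm)

lemma card_col (H : SimpleGraph X) (q : ℕ) :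
    Nat.card (Col H q) = ∑ P ∈ Ind H, q.descFactorial P.parts.card := by
  classical
  let F : (Σ P : Ind H, (P.1.parts ↪ Fin q)) → Col H q := fun a =>
    ⟨fun v => a.2 (cls a.1.1 v), fun u v huv h => by
      have hu := (cls_eq _ u v).1 (a.2.injective h)
      exact mem_Ind.1 a.1.2 _ (a.1.1.part_mem.2 (mem_univ v)) hu (a.1.1.mem_part (mem_univ v))
        huv.ne huv⟩
  have hF : Function.Bijective F := by
    constructor
    · rintro ⟨⟨P, hP⟩, e⟩ ⟨⟨Q, hQ⟩, f⟩ h
      have h' : ∀ v, e (cls P v) = f (cls Q v) := fun v => congrFun (congrArg Subtype.val h) v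
      have hPQ : P = Q := ptn_ext fun u v => by
        rw [← cls_eq, ← cls_eq, ← e.injective.eq_iff, ← f.injective.eq_iff, h', h']
      subst hPQ
      have : e = f := by
        ext s
        obtain ⟨v, rfl⟩ := cls_surj P s
        rw [h']
      subst this
      rfl
    · intro c
      obtain ⟨P, hP, h⟩ := exists_ker H c.1 c.2
      choose g hg using cls_surj P
      refine ⟨⟨⟨P, hP⟩, ⟨fun s => c.1 (g s), fun s t hst => ?_⟩⟩, Subtype.ext (funext fun v => ?_)⟩
      · rw [← hg s, ← hg t, cls_eq, h]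
        exact hst
      · exact (h _ _).1 ((cls_eq P _ _).1 (hg _))
  rw [← Nat.card_congr (Equiv.ofBijective F hF), Nat.card_eq_fintype_card, Fintype.card_sigma,
    ← Finset.sum_coe_sort (Ind H)]
  refine Finset.sum_congr rfl fun P _ => ?_
  rw [Fintype.card_embedding_eq]
  simp

/-- The chromatic polynomial, written in the falling-factorial basis. -/
noncomputable def chrom (H : SimpleGraph X) : ℝ[X] :=
  ∑ P ∈ Ind H, descPochhammer ℝ P.parts.card

lemma chrom_nat (H : SimpleGraph X) (q : ℕ) :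
    (chrom H).eval (q:ℝ) = (Nat.card (Col H q) : ℝ) := by
  rw [card_col, chrom, eval_finsetSum]
  push_cast
  exact Finset.sum_congr rfl fun P _ => descPochhammer_eval_eq_descFactorial ℝ _ _

lemma diff_desc (m k : ℕ) : (fwdDiff (1:ℝ))^[k] (fun s => (descPochhammer ℝ m).eval s) 0
    = if k = m then (m.factorial : ℝ) else 0 := by
  have h := fwdDiff_iter_choose_zero m k
  rw [fwdDiff_iter_eq_sum_shift] at h ⊢
  have h2 : ((∑ i ∈ range (k + 1), ((-1:ℤ) ^ (k - i) * (k.choose i : ℤ)) •
      (((0 + i • 1 : ℕ).choose m : ℕ) : ℤ) : ℤ) : ℝ) = ((if k = m then 1 else 0 : ℤ) : ℝ) := by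
    exact_mod_cast congrArg (Int.cast : ℤ → ℝ) h
  have h3 : ∑ i ∈ range (k + 1), ((-1:ℤ) ^ (k - i) * (k.choose i : ℤ)) •
      (descPochhammer ℝ m).eval (0 + i • (1:ℝ)) = m.factorial * ((∑ i ∈ range (k + 1),
        ((-1:ℤ) ^ (k - i) * (k.choose i : ℤ)) • (((0 + i • 1 : ℕ).choose m : ℕ) : ℤ) : ℤ) : ℝ) := by
    push_cast
    rw [Finset.mul_sum]
    refine Finset.sum_congr rfl fun i _ => ?_
    rw [zero_add, nsmul_eq_mul, mul_one, descPochhammer_eval_eq_descFactorial,
      Nat.descFactorial_eq_factorial_mul_choose]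
    simp
    ring
  rw [h3, h2]
  split_ifs <;> simp

lemma diff_chrom (H : SimpleGraph X) (k : ℕ) :
    (fwdDiff (1:ℝ))^[k] (fun s => (chrom H).eval s) 0 = k.factorial * ((Ptn H k).ncard : ℝ) := by
  classical
  have e : (fun s => (chrom H).eval s)
      = ∑ P ∈ Ind H, fun s => (descPochhammer ℝ P.parts.card).eval s := by
    funext s
    rw [chrom, eval_finsetSum, Finset.sum_apply]
  have e2 : Ptn H k = ↑((Ind H).filter fun P => k = P.parts.card) := by
    ext P
    simp only [Ptn, Set.mem_ofPred_eq, coe_filter, mem_Ind]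
    exact ⟨fun h => ⟨h.2, h.1.symm⟩, fun h => ⟨h.2.symm, h.1⟩⟩
  rw [e, fwdDiff_iter_finsetSum, Finset.sum_apply, e2, Set.ncard_coe_finset, card_eq_sum_ones,
    Nat.cast_sum, Finset.mul_sum, Finset.sum_filter]
  refine Finset.sum_congr rfl fun P _ => ?_
  rw [diff_desc]
  split_ifs with h
  · simp [h]
  · rfl

lemma le_natDegree_chrom (H : SimpleGraph X) : Fintype.card X ≤ (chrom H).natDegree := by
  by_contra h
  have h1 := congrFun (Polynomial.fwdDiff_iter_eq_zero_of_degree_lt (not_le.1 h)) 0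
  have h2 := diff_chrom H (Fintype.card X)
  have h3 : 0 < (Ptn H (Fintype.card X)).ncard :=
    ptn_pos ⟨Fintype.equivFin X, fun u v huv h => huv.ne ((Fintype.equivFin X).injective h)⟩
      (Fintype.equivFin X).surjective
  have h4 : (0:ℝ) < (Fintype.card X).factorial * ((Ptn H (Fintype.card X)).ncard : ℝ) := by
    positivity
  rw [← h2] at h4
  exact h4.ne' h1

lemma poly_ext {p p' : ℝ[X]} (h : ∀ q : ℕ, p.eval (q:ℝ) = p'.eval (q:ℝ)) : p = p' :=
  eq_of_infinite_eval_eq p p' ((Set.infinite_range_of_injective Nat.cast_injective).mono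
    (by rintro _ ⟨q, rfl⟩; exact h q))

end Pool.Agent.MP_ee26cf_co.LI
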