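import Pool.Agent.MP_ee26cf_co.LI.Uni

set_option autoImplicit false

namespace Pool.Agent.MP_ee26cf_co.LI

open Finset Polynomial

variable {V : Type} [Fintype V] [DecidableEq V]

open Classical in
/-- Ordered adjacent pairs from `A` to `B`. -/
noncomputable def ap (H : SimpleGraph V) (A B : Finset V) : ℕ :=
  ∑ u ∈ A, ∑ v ∈ B, if H.Adj u v then 1 else 0

omit [Fintype V] in
lemma ap_nb (H : SimpleGraph V) (A U : Finset V) : ap H A U = ∑ u ∈ A, (nb H U u).card := by
  classical
  refine Finset.sum_congr rfl fun u _ => ?_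
  rw [← Finset.card_filter]
  congr 1
  ext v
  rw [mem_nb, mem_filter]

omit [Fintype V] [DecidableEq V] in
lemma ap_comm (H : SimpleGraph V) (A B : Finset V) : ap H A B = ap H B A := by
  unfold ap
  rw [Finset.sum_comm]
  exact Finset.sum_congr rfl fun u _ => Finset.sum_congr rfl fun v _ => by rw [H.adj_comm]

omit [Fintype V] in
lemma ap_split (H : SimpleGraph V) {U W : Finset V} (h : W ⊆ U) :
    ap H U U + ap H (U \ W) (U \ W) = ap H W W + 2 * ap H (U \ W) U ∧
      ap H W W + ap H (U \ W) (U \ W) ≤ ap H U U := by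
  have l : ∀ B, ap H U B = ap H (U \ W) B + ap H W B := fun B => (Finset.sum_sdiff h).symm
  have h1 := l U
  have h2 := l W
  have h3 := l (U \ W)
  rw [ap_comm H U W] at h2
  rw [ap_comm H U (U \ W), ap_comm H W (U \ W)] at h3
  omega

omit [DecidableEq V] in
lemma ap_univ (H : SimpleGraph V) : ap H univ univ = 2 * H.edgeSet.ncard := by
  classical
  rw [← SimpleGraph.coe_edgeFinset, Set.ncard_coe_finset, ← H.sum_degrees_eq_twice_card_edges]
  refine Finset.sum_congr rfl fun u _ => ?_
  rw [← Finset.card_filter, ← SimpleGraph.card_neighborFinset_eq_degree,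
    SimpleGraph.neighborFinset_eq_filter]

omit [Fintype V] [DecidableEq V] in
lemma ap_forest {F : SimpleGraph V} (hF : F.IsAcyclic) {W : Finset V} (hW : W.Nonempty) :
    ap F W W + 2 ≤ 2 * W.card := by
  classical
  have : Nonempty (↑W : Set V) := ⟨⟨hW.choose, hW.choose_spec⟩⟩
  obtain ⟨T, h1, _, hT⟩ := SimpleGraph.Connected.exists_isTree_le_of_le_of_isAcyclic
    (G := (⊤ : SimpleGraph (↑W : Set V))) SimpleGraph.connected_top le_top (hF.induce (↑W : Set V))
  have h2 := hT.card_edgeFinset
  have h3 := ap_univ (F.induce (↑W : Set V))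
  have h4 : (F.induce (↑W : Set V)).edgeSet.ncard ≤ T.edgeFinset.card := by
    rw [← Set.ncard_coe_finset, SimpleGraph.coe_edgeFinset]
    exact Set.ncard_le_ncard (SimpleGraph.edgeSet_mono h1) (Set.toFinite _)
  have h5 : ap (F.induce (↑W : Set V)) univ univ = ap F W W := by
    unfold ap
    rw [← Finset.sum_coe_sort W]
    refine Finset.sum_congr rfl fun u _ => ?_
    rw [← Finset.sum_coe_sort W]
    rfl
  have h6 : Fintype.card (↑W : Set V) = W.card := by simp
  omega

/-- The hereditary edge bounds of a graph with few cycles. -/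
def Few (G Y : SimpleGraph V) (μ : ℕ) : Prop :=
  ∀ W : Finset V, ap Y W W ≤ 2 * μ ∧ (W.Nonempty → ap G W W + 2 ≤ 2 * W.card + ap Y W W)

lemma exists_few {G : SimpleGraph V} {X : Set (Sym2 V)} {μ : ℕ} (hX : X.ncard ≤ μ)
    (hF : (G.deleteEdges X).IsAcyclic) : ∃ Y, Few G Y μ := by
  classical
  refine ⟨SimpleGraph.fromEdgeSet X, fun W => ⟨?_, fun hW => ?_⟩⟩
  · have h1 := (ap_split (SimpleGraph.fromEdgeSet X) (subset_univ W)).2
    have h2 := ap_univ (SimpleGraph.fromEdgeSet X)
    have h3 : (SimpleGraph.fromEdgeSet X).edgeSet.ncard ≤ X.ncard :=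
      Set.ncard_le_ncard (by simp) (Set.toFinite _)
    omega
  · have h1 := ap_forest hF hW
    have h2 : ap G W W ≤ ap (G.deleteEdges X) W W + ap (SimpleGraph.fromEdgeSet X) W W := by
      unfold ap
      rw [← Finset.sum_add_distrib]
      refine Finset.sum_le_sum fun u _ => ?_
      rw [← Finset.sum_add_distrib]
      refine Finset.sum_le_sum fun v _ => ?_
      by_cases h : G.Adj u v
      · by_cases h' : s(u, v) ∈ X <;> simp [h, h', h.ne]
      · simp [h]
    omega

/-- Colourings that are proper on `U`. -/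
noncomputable def cn (G : SimpleGraph V) (U A : Finset V) (q : ℕ) : ℕ :=
  Nat.card (Col (aux G U A) q)

omit [DecidableEq V] in
lemma cn_anti (G : SimpleGraph V) (U : Finset V) {A B : Finset V} (h : A ⊆ B) (q : ℕ) :
    cn G U B q ≤ cn G U A q := by
  unfold cn
  rw [card_aux, card_aux]
  exact Nat.card_le_card_of_injective (fun c => ⟨c.1, c.2.1, fun a ha => c.2.2 a (h ha)⟩)
    fun c d e => Subtype.ext (Subtype.mk.inj e)

lemma cn_one (G : SimpleGraph V) {U : Finset V} {a : V} (ha : a ∈ U) (q : ℕ) :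
    q * cn G U ∅ q = q * cn G U {a} q + cn G U ∅ q := by
  have h := rec_nat G ha (notMem_empty a) q
  rw [empty_union, ← swap_nat G ha] at h
  exact h

lemma cn_two (G : SimpleGraph V) {U : Finset V} {a b : V} (hb : b ∈ U) (hab : b ≠ a) (q : ℕ) :
    q * cn G U {a} q ≤ q * cn G U {b, a} q + cn G U ∅ q := by
  have h := rec_nat G (A := {a}) hb (by simpa using hab) q
  have h2 := cn_anti G (U.erase b) (subset_union_right (s₁ := {a}) (s₂ := nb G U b)) q
  have h3 := swap_nat G hb q
  unfold cn at *
  omega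

omit [Fintype V] in
lemma nb_sub {G : SimpleGraph V} {U : Finset V} {u a : V} (h : a ∈ nb G U u) : a ∈ U.erase u :=
  mem_erase.2 ⟨(mem_nb.1 h).2.ne', (mem_nb.1 h).1⟩

lemma peel (G : SimpleGraph V) {U : Finset V} {u : V} (hu : u ∈ U) (h : (nb G U u).card ≤ 1)
    (q : ℕ) : q * cn G (U.erase u) ∅ q
      = q * cn G U ∅ q + (nb G U u).card * cn G (U.erase u) ∅ q := by
  have h1 : cn G U ∅ q = cn G (U.erase u) (nb G U u) q := swap_nat G hu q
  rcases Nat.le_one_iff_eq_zero_or_eq_one.1 h with h | h
  · rw [h1, card_eq_zero.1 h]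
    simp
  · obtain ⟨a, ha⟩ := card_eq_one.1 h
    rw [h1, h, one_mul, ha]
    exact cn_one G (nb_sub (ha ▸ mem_singleton_self a)) q

lemma peel_two (G : SimpleGraph V) {U : Finset V} {u : V} (hu : u ∈ U) (h : (nb G U u).card = 2)
    (q : ℕ) : q * cn G U ∅ q + cn G (U.erase u) ∅ q ≤ q * cn G (U.erase u) ∅ q ∧
      q * cn G (U.erase u) ∅ q ≤ q * cn G U ∅ q + 2 * cn G (U.erase u) ∅ q := by
  have h1 : cn G U ∅ q = cn G (U.erase u) (nb G U u) q := swap_nat G hu q
  obtain ⟨b, a, hab, e⟩ := card_eq_two.1 h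
  have h2 := cn_one G (nb_sub (G := G) (U := U) (u := u) (a := a) (by simp [e])) q
  have h3 := cn_two G (nb_sub (G := G) (U := U) (u := u) (a := b) (by simp [e])) hab q
  have h4 := Nat.mul_le_mul_left q
    (cn_anti G (U.erase u) (A := {a}) (B := {b, a}) (subset_insert _ _) q)
  rw [h1, e]
  omega

lemma few_roots {G Y : SimpleGraph V} {μ : ℕ} (h : Few G Y μ) (z : ℂ)
    (hz : 7 * ((2 * μ + 2 : ℕ) : ℝ) < ‖z‖) (U : Finset V) : aeval z (chrom (aux G U ∅)) ≠ 0 := by
  induction U using Finset.strongInduction with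
  | H U ih =>
    by_cases hu : ∃ u ∈ U, (nb G U u).card ≤ 1
    · obtain ⟨u, hu, hd⟩ := hu
      have e : X * chrom (aux G (U.erase u) ∅) = X * chrom (aux G U ∅)
          + C ((nb G U u).card : ℝ) * chrom (aux G (U.erase u) ∅) := poly_ext fun q => by
        rw [eval_add, eval_mul, eval_mul, eval_mul, eval_X, eval_C, chrom_nat, chrom_nat]
        exact_mod_cast peel G hu hd q
      intro h0
      have h1 := congrArg (aeval z) e
      simp only [map_add, map_mul, aeval_X, h0, mul_zero, zero_add, map_natCast] at h1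
      have h2 := mul_right_cancel₀ (ih _ (erase_ssubset hu)) h1
      rw [h2, Complex.norm_natCast] at hz
      have h3 : ((nb G U u).card : ℝ) ≤ 1 := by exact_mod_cast hd
      have h4 : (0:ℝ) ≤ μ := Nat.cast_nonneg _
      push_cast at hz
      linarith
    · push Not at hu
      intro h0
      refine absurd (chrom_roots (aux G U ∅) (D := 2 * μ + 2) (by omega) (fun v => ?_) z h0)
        (not_le.2 hz)
      cases v with
      | none =>
        have : (aux G U ∅).neighborSet none = ∅ := by
          ext w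
          cases w <;> simp [aux]
        simp [this]
      | some u =>
        by_cases hU : u ∈ U
        · have e : (aux G U ∅).neighborSet (some u) = some '' (↑(nb G U u) : Set V) := by
            ext w
            cases w <;> simp [aux, mem_nb, hU, and_comm]
          rw [e, Set.ncard_image_of_injective _ (Option.some_injective _), Set.ncard_coe_finset]
          have h1 := (h U).1
          have h2 := (h U).2 ⟨u, hU⟩
          rw [ap_nb, ← Finset.add_sum_erase _ _ hU] at h2
          have h3 := Finset.card_nsmul_le_sum (U.erase u) (fun v => (nb G U v).card) 2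
            fun v hv => hu v (mem_erase.1 hv).2
          rw [card_erase_of_mem hU, smul_eq_mul] at h3
          have h4 := card_pos.2 ⟨u, hU⟩
          omega
        · have : (aux G U ∅).neighborSet (some u) = ∅ := by
            ext w
            cases w <;> simp [aux, hU]
          simp [this]

theorem few_large {G Y : SimpleGraph V} {μ j : ℕ} (h : Few G Y μ) (hj : 60 * (2 * μ + 2) ≤ j)
    (hn : j + 1 ≤ Fintype.card V) :
    (Ptn G j).ncard * (Ptn G (j + 2)).ncard < (Ptn G (j + 1)).ncard ^ 2 := by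
  have e : chrom (aux G univ ∅) = X * chrom G := poly_ext fun q => by
    rw [eval_mul, eval_X, chrom_nat, chrom_nat, univ_nat, Nat.cast_mul]
  have h := poly_an (D := 2 * μ + 2) (by omega) hj (hn.trans (le_natDegree_chrom G)) fun z hz => by
    by_contra hc
    apply few_roots h z (not_le.1 hc) univ
    simp only [e, map_mul, hz, mul_zero]
  rw [diff_chrom, diff_chrom, diff_chrom, Nat.factorial_succ (j + 1), Nat.factorial_succ j] at h
  push_cast at h
  have p : (0:ℝ) < ((j:ℝ) + 2) * (((j:ℝ) + 1) * j.factorial) ^ 2 := by positivity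
  have h2 : (((Ptn G j).ncard : ℝ) * (Ptn G (j + 2)).ncard) < ((Ptn G (j + 1)).ncard : ℝ) ^ 2 :=
    lt_of_mul_lt_mul_left (by linarith) p.le
  exact_mod_cast h2

end Pool.Agent.MP_ee26cf_co.LI
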