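import Pool.Agent.MP_ee26cf_co.LI.Few1

set_option autoImplicit false

namespace Pool.Agent.MP_ee26cf_co.LI

open Finset

variable {V : Type} [Fintype V] [DecidableEq V]

lemma cn_le (G : SimpleGraph V) (U : Finset V) (q : ℕ) :
    cn G U ∅ q ≤ q ^ (Fintype.card V + 1) := by
  have h := Nat.card_le_card_of_injective (Subtype.val : Col (aux G U ∅) q → _)
    Subtype.val_injective
  exact h.trans_eq (by simp)

lemma le_cn (G : SimpleGraph V) (U : Finset V) {q : ℕ} (f : Col G q) :
    q ^ (Fintype.card V + 1) ≤ cn G U ∅ q * q ^ U.card := by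
  unfold cn
  rw [card_aux]
  have h := Nat.card_le_card_of_injective
    (β := {c : Option V → Fin q // Pr G U ∅ c} × (U → Fin q))
    (fun h : Option V → Fin q => (⟨fun a => a.elim (h none) fun v =>
      if v ∈ U then f.1 v else h (some v), fun u hu v hv huv => by
        simpa [hu, hv] using f.2 u v huv, by simp⟩, fun v => h (some v.1))) (by
      intro g h e
      obtain ⟨e1, e2⟩ := Prod.mk.inj e
      have e3 := Subtype.mk.inj e1
      funext a
      cases a with
      | none => exact congrFun e3 none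
      | some v =>
        by_cases hv : v ∈ U
        · exact congrFun e2 ⟨v, hv⟩
        · simpa [hv] using congrFun e3 (some v))
  simpa [Nat.card_prod] using h

/-- Two-sided bounds on the number of colourings. -/
def Data (G : SimpleGraph V) (U : Finset V) (l t s : ℕ) : Prop :=
  l + t ≤ U.card ∧ ∀ q : ℕ, 1 ≤ q →
    (cn G U ∅ q : ℝ) ≤ (q:ℝ) ^ (Fintype.card V + 1) * (((q:ℝ) - 1) / q) ^ (l + t) ∧
    (Nonempty (Col G q) → 2 ≤ q → (q:ℝ) ^ (Fintype.card V + 1) * (((q:ℝ) - 1) / q) ^ l
      * (((q:ℝ) - 2) / q) ^ t * (1 / q) ^ s ≤ cn G U ∅ q)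

lemma exists_data {G Y : SimpleGraph V} {μ : ℕ} (h : Few G Y μ) (U : Finset V) :
    ∀ T : ℕ, (∀ W ⊆ U, ap G W W + ap Y W W ≤ 2 * W.card + 2 * T) →
      ∃ l t s, t ≤ T ∧ s ≤ 2 * μ ∧ Data G U l t s := by
  induction U using Finset.strongInduction with
  | H U ih =>
    intro T hT
    by_cases hu : ∃ u ∈ U, (nb G U u).card ≤ 1
    · obtain ⟨u, hu, hd⟩ := hu
      obtain ⟨l, t, s, h1, h2, h3, h4⟩ := ih _ (erase_ssubset hu) T
        fun W hW => hT W (hW.trans (erase_subset _ _))
      have hc := card_erase_add_one hu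
      refine ⟨l + (nb G U u).card, t, s, h1, h2, by omega, fun q hq => ?_⟩
      have q1 : (1:ℝ) ≤ q := by exact_mod_cast hq
      have e : (cn G U ∅ q : ℝ) = (((q:ℝ) - 1) / q) ^ (nb G U u).card * cn G (U.erase u) ∅ q := by
        have h5 : (q:ℝ) * cn G (U.erase u) ∅ q
          = q * cn G U ∅ q + (nb G U u).card * cn G (U.erase u) ∅ q := by
            exact_mod_cast peel G hu hd q
        rcases Nat.le_one_iff_eq_zero_or_eq_one.1 hd with h0 | h0
        · rw [h0] at h5 ⊢
          refine mul_left_cancel₀ (show (q:ℝ) ≠ 0 by linarith) ?_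
          simpa using h5.symm
        · rw [h0] at h5 ⊢
          field_simp
          push_cast at h5
          linarith
      have p : 0 ≤ (((q:ℝ) - 1) / q) ^ (nb G U u).card :=
        pow_nonneg (div_nonneg (by linarith) (by linarith)) _
      rw [e]
      refine ⟨(mul_le_mul_of_nonneg_left (h4 q hq).1 p).trans_eq (by ring), fun a b => ?_⟩
      exact le_of_eq_of_le (by ring) (mul_le_mul_of_nonneg_left ((h4 q hq).2 a b) p)
    push Not at hu
    by_cases hu2 : ∃ u ∈ U, (nb G U u).card = 2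
    · obtain ⟨u, hU, hd⟩ := hu2
      have key : ∀ W ⊆ U.erase u, ap G W W + ap Y W W + 2 ≤ 2 * W.card + 2 * T := by
        intro W hW
        have hWU : W ⊆ U := hW.trans (erase_subset _ _)
        have a1 := (ap_split G hWU).1
        have a2 := (ap_split Y hWU).2
        have a3 := (h (U \ W)).2 ⟨u, mem_sdiff.2 ⟨hU, fun hu => by simpa using hW hu⟩⟩
        have a4 := Finset.card_nsmul_le_sum (U \ W) (fun v => (nb G U v).card) 2
          fun v hv => hu v (mem_sdiff.1 hv).1
        rw [← ap_nb, smul_eq_mul] at a4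
        have a5 := hT U subset_rfl
        have a6 := card_sdiff_add_card_eq_card hWU
        omega
      have hT1 : 1 ≤ T := by
        have := key ∅ (empty_subset _)
        rw [card_empty] at this
        omega
      obtain ⟨l, t, s, h1, h2, h3, h4⟩ := ih _ (erase_ssubset hU) (T - 1)
        fun W hW => by have := key W hW; omega
      have hc := card_erase_add_one hU
      refine ⟨l, t + 1, s, by omega, h2, by omega, fun q hq => ?_⟩
      have q1 : (1:ℝ) ≤ q := by exact_mod_cast hq
      have b1 : (cn G U ∅ q : ℝ) ≤ ((q:ℝ) - 1) / q * cn G (U.erase u) ∅ q := by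
        have : (q:ℝ) * cn G U ∅ q + cn G (U.erase u) ∅ q ≤ q * cn G (U.erase u) ∅ q := by
          exact_mod_cast (peel_two G hU hd q).1
        rw [div_mul_eq_mul_div, le_div_iff₀ (by linarith)]
        linarith
      have b2 : ((q:ℝ) - 2) / q * cn G (U.erase u) ∅ q ≤ cn G U ∅ q := by
        have : (q:ℝ) * cn G (U.erase u) ∅ q ≤ q * cn G U ∅ q + 2 * cn G (U.erase u) ∅ q := by
          exact_mod_cast (peel_two G hU hd q).2
        rw [div_mul_eq_mul_div, div_le_iff₀ (by linarith)]
        linarith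
      refine ⟨b1.trans ((mul_le_mul_of_nonneg_left (h4 q hq).1
        (div_nonneg (by linarith) (by linarith))).trans_eq (by ring)), fun a b => ?_⟩
      have q2 : (2:ℝ) ≤ q := by exact_mod_cast b
      exact (le_of_eq_of_le (by ring) (mul_le_mul_of_nonneg_left ((h4 q hq).2 a b)
        (div_nonneg (by linarith) (by linarith)))).trans b2
    · push Not at hu2
      refine ⟨0, 0, U.card, Nat.zero_le _, ?_, Nat.zero_le _, fun q hq => ⟨?_, fun a _ => ?_⟩⟩
      · rcases U.eq_empty_or_nonempty with rfl | hU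
        · simp
        · have a1 := (h U).1
          have a2 := (h U).2 hU
          have a4 := Finset.card_nsmul_le_sum U (fun v => (nb G U v).card) 3
            fun v hv => by have := hu v hv; have := hu2 v hv; omega
          rw [← ap_nb, smul_eq_mul] at a4
          omega
      · rw [add_zero, pow_zero, mul_one]
        exact_mod_cast cn_le G U q
      · have q1 : (0:ℝ) < q := by exact_mod_cast hq
        rw [pow_zero, pow_zero, mul_one, mul_one, one_div, inv_pow, ← div_eq_mul_inv,
          div_le_iff₀ (by positivity)]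
        exact_mod_cast le_cn G U a.some

lemma col_ge (G : SimpleGraph V) (q : ℕ) : q.factorial * (Ptn G q).ncard ≤ Nat.card (Col G q) := by
  classical
  have e2 : Ptn G q = ↑((Ind G).filter fun P => P.parts.card = q) := by
    ext P
    simp only [Ptn, Set.mem_ofPred_eq, coe_filter, mem_Ind, and_comm]
  rw [card_col, e2, Set.ncard_coe_finset, card_eq_sum_ones, Finset.mul_sum]
  refine le_trans (Finset.sum_le_sum fun P hP => ?_)
    (Finset.sum_le_sum_of_subset (filter_subset _ _))
  rw [(mem_filter.1 hP).2, mul_one, Nat.descFactorial_self]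

lemma col_le' (G : SimpleGraph V) (q : ℕ) : Nat.card (Col G (q + 1))
    ≤ (q + 1).factorial * (Ptn G (q + 1)).ncard + (q + 1) * Nat.card (Col G q) := by
  classical
  have e2 : Ptn G (q + 1) = ↑((Ind G).filter fun P => P.parts.card = q + 1) := by
    ext P
    simp only [Ptn, Set.mem_ofPred_eq, coe_filter, mem_Ind, and_comm]
  rw [card_col, card_col, e2, Set.ncard_coe_finset, card_filter, Finset.mul_sum, Finset.mul_sum,
    ← Finset.sum_add_distrib]
  refine Finset.sum_le_sum fun P _ => ?_
  rcases lt_trichotomy P.parts.card (q + 1) with h | h | h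
  · rw [← Nat.succ_descFactorial]
    exact le_add_left (Nat.le_mul_of_pos_left _ (by omega))
  · rw [if_pos h, h, mul_one, Nat.descFactorial_self]
    omega
  · rw [Nat.descFactorial_of_lt h]
    omega

lemma real_small {y θ Λ p0 p1 p2 L : ℝ} (hy : 2 ≤ y) (hL : 0 < L) (h1 : L ≤ p1)
    (h02 : p0 * p2 ≤ θ * Λ ^ 2 * L ^ 2) (h0 : p0 ≤ θ * Λ * L) (hΛ : 1 ≤ Λ) (hθ : 0 ≤ θ)
    (h : θ * Λ ^ 2 * y ^ 2 < 1) : p0 * p2 < (p1 - y * p0) ^ 2 ∧ 0 ≤ p1 - y * p0 := by
  have a1 : θ * Λ ≤ θ * Λ ^ 2 := mul_le_mul_of_nonneg_left (le_self_pow₀ hΛ (by norm_num)) hθ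
  have a0 : 0 ≤ θ * Λ ^ 2 := by positivity
  have a2 : θ * Λ ^ 2 * (2 * y) ≤ θ * Λ ^ 2 * y ^ 2 :=
    mul_le_mul_of_nonneg_left (by nlinarith) a0
  have a3 : θ * Λ ^ 2 * 4 ≤ θ * Λ ^ 2 * y ^ 2 := mul_le_mul_of_nonneg_left (by nlinarith) a0
  have a4 : y * p0 ≤ L / 2 := by
    have b1 := mul_le_mul_of_nonneg_left h0 (show 0 ≤ y by linarith)
    have b2 := mul_le_mul_of_nonneg_right a1 (show 0 ≤ y * L by positivity)
    have b3 := mul_le_mul_of_nonneg_right (show θ * Λ ^ 2 * y ≤ 1 / 2 by linarith) hL.le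
    linarith
  have a5 : (L / 2) ^ 2 ≤ (p1 - y * p0) ^ 2 := pow_le_pow_left₀ (by positivity) (by linarith) 2
  have a6 := mul_lt_mul_of_pos_right (show θ * Λ ^ 2 < 1 / 4 by linarith) (pow_pos hL 2)
  exact ⟨by linarith, by linarith⟩

end Pool.Agent.MP_ee26cf_co.LI
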