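import Pool.Agent.MP_ee26cf_co.LI.Few2

set_option autoImplicit false

namespace Pool.Agent.MP_ee26cf_co.LI

open Finset

lemma fac_small {x : ℝ} (hx : 1 ≤ x) : 3 / 4 ≤ 1 - 1 / (x + 1) ^ 2 ∧
    x * (x + 2) ≤ (1 - 1 / (x + 1) ^ 2) * (x + 1) ^ 2 ∧
    (x - 1) * (x + 1) ≤ (1 - 1 / (x + 1) ^ 2) * x ^ 2 ∧
    x ≤ (1 - 1 / (x + 1) ^ 2) * (x + 1) ∧ x - 1 ≤ (1 - 1 / (x + 1) ^ 2) * x := by
  have h0 : 0 < (x + 1) ^ 2 := by positivity
  have h1 : 1 / (x + 1) ^ 2 * (x + 1) ^ 2 = 1 := by field_simp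
  have h2 : 0 < 1 / (x + 1) ^ 2 := by positivity
  generalize 1 / (x + 1) ^ 2 = a at *
  have h3 := mul_le_mul_of_nonneg_left (show 4 ≤ (x + 1) ^ 2 by nlinarith) h2.le
  have h4 := mul_le_mul_of_nonneg_left (show x ^ 2 ≤ (x + 1) ^ 2 by nlinarith) h2.le
  have h5 := mul_le_mul_of_nonneg_left (show x + 1 ≤ (x + 1) ^ 2 by nlinarith) h2.le
  have h6 := mul_le_mul_of_nonneg_left (show x ≤ (x + 1) ^ 2 by nlinarith) h2.le
  refine ⟨by linarith, by linarith, by linarith, by linarith, by linarith⟩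

lemma pow3 {a b c a' b' c' : ℝ} (r l t : ℕ) (ha : 0 ≤ a) (hb : 0 ≤ b) (hc : 0 ≤ c) (h1 : a ≤ a')
    (h2 : b ≤ b') (h3 : c ≤ c' ∨ t = 0) : a ^ r * b ^ l * c ^ t ≤ a' ^ r * b' ^ l * c' ^ t := by
  refine mul_le_mul (mul_le_mul (pow_le_pow_left₀ ha h1 r) (pow_le_pow_left₀ hb h2 l)
    (by positivity) (pow_nonneg (ha.trans h1) r)) ?_ (by positivity)
    (mul_nonneg (pow_nonneg (ha.trans h1) r) (pow_nonneg (hb.trans h2) l))
  rcases h3 with h | h
  · exact pow_le_pow_left₀ hc h t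
  · simp [h]

variable {V : Type} [Fintype V] [DecidableEq V]

lemma small {G : SimpleGraph V} {l t s j : ℕ} (hD : Data G univ l t s) (hj : 1 ≤ j)
    (hjt : 2 ≤ j ∨ t = 0) (hc : Nonempty (Col G (j + 1)))
    (hθ : (1 - 1 / ((j:ℝ) + 1) ^ 2) ^ Fintype.card V * (2 ^ t * ((j:ℝ) + 1) ^ s) ^ 2
      * ((j:ℝ) + 1) ^ 2 < 1) :
    (Ptn G j).ncard * (Ptn G (j + 2)).ncard < (Ptn G (j + 1)).ncard ^ 2 := by
  obtain ⟨h1, h2⟩ := hD
  obtain ⟨r, hr⟩ := Nat.exists_eq_add_of_le h1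
  rw [card_univ] at hr
  have e : ∀ q, (cn G univ ∅ q : ℝ) = q * (Nat.card (Col G q) : ℝ) := fun q => by
    exact_mod_cast univ_nat G q
  have up : ∀ q : ℕ, 1 ≤ q → (Nat.card (Col G q) : ℝ) ≤ (q:ℝ) ^ r * ((q:ℝ) - 1) ^ (l + t) := by
    intro q hq
    have q0 : (0:ℝ) < q := by exact_mod_cast hq
    have := (h2 q hq).1
    rw [e, hr] at this
    refine le_of_mul_le_mul_left (this.trans_eq ?_) q0
    rw [div_pow]
    field_simp
    ring
  have x1 : (1:ℝ) ≤ j := by exact_mod_cast hj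
  have lo : ((j:ℝ) + 1) ^ r * (j:ℝ) ^ l * ((j:ℝ) - 1) ^ t / ((j:ℝ) + 1) ^ s
      ≤ (Nat.card (Col G (j + 1)) : ℝ) := by
    have := (h2 (j + 1) (by omega)).2 hc (by omega)
    rw [e, hr] at this
    push_cast at this
    refine le_of_mul_le_mul_left (le_of_eq_of_le ?_ this) (by linarith : (0:ℝ) < j + 1)
    rw [div_pow, div_pow, div_pow]
    field_simp
    ring
  have u0 := up j hj
  have u2 := up (j + 2) (by omega)
  have g0 : (j.factorial : ℝ) * (Ptn G j).ncard ≤ Nat.card (Col G j) := by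
    exact_mod_cast col_ge G j
  have g2 : ((j + 2).factorial : ℝ) * (Ptn G (j + 2)).ncard ≤ Nat.card (Col G (j + 2)) := by
    exact_mod_cast col_ge G (j + 2)
  have g1 : (Nat.card (Col G (j + 1)) : ℝ) ≤ ((j + 1).factorial : ℝ) * (Ptn G (j + 1)).ncard
      + (j + 1) * Nat.card (Col G j) := by
    exact_mod_cast col_le' G j
  have hjt' : (2:ℝ) ≤ j ∨ t = 0 := hjt.imp_left fun h => by exact_mod_cast h
  rw [Nat.factorial_succ (j + 1), Nat.factorial_succ j] at g2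
  rw [Nat.factorial_succ j] at g1
  rw [hr] at hθ
  push_cast at u2 g1 g2
  have f0 : (0:ℝ) < j.factorial := by positivity
  have hfin : ∀ b0 b1 b2 : ℕ, ((b0:ℝ) * b2 < (b1:ℝ) ^ 2) → b0 * b2 < b1 ^ 2 := fun _ _ _ h => by
    exact_mod_cast h
  refine hfin _ _ _ ?_
  have n0 : (0:ℝ) ≤ (Ptn G j).ncard := Nat.cast_nonneg _
  have n2 : (0:ℝ) ≤ (Ptn G (j + 2)).ncard := Nat.cast_nonneg _
  have m0 : (0:ℝ) ≤ Nat.card (Col G j) := Nat.cast_nonneg _
  have m2 : (0:ℝ) ≤ Nat.card (Col G (j + 2)) := Nat.cast_nonneg _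
  generalize ((Ptn G j).ncard : ℝ) = b0 at *
  generalize ((Ptn G (j + 1)).ncard : ℝ) = b1 at *
  generalize ((Ptn G (j + 2)).ncard : ℝ) = b2 at *
  generalize (Nat.card (Col G j) : ℝ) = p0 at *
  generalize (Nat.card (Col G (j + 1)) : ℝ) = p1 at *
  generalize (Nat.card (Col G (j + 2)) : ℝ) = p2 at *
  generalize (j.factorial : ℝ) = f at *
  generalize (j:ℝ) = x at *
  obtain ⟨k0, k1, k2, k3, k4⟩ := fac_small x1
  generalize 1 - 1 / (x + 1) ^ 2 = κ at *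
  have κ0 : 0 ≤ κ := by linarith
  have x0 : 0 ≤ x - 1 := by linarith
  have hL : 0 < (x + 1) ^ r * x ^ l * (x - 1) ^ t / (x + 1) ^ s := by
    rcases hjt' with h | h
    · have : 0 < x - 1 := by linarith
      positivity
    · rw [h, pow_zero]
      positivity
  have h02 := pow3 r l t (by positivity) (by positivity) (c := (x - 1) * (x + 1)) (by positivity)
    k1 k2 (c' := κ * (2 * (x - 1)) ^ 2) (hjt'.imp_left fun h => by
      have a1 := mul_le_mul_of_nonneg_right k0 (sq_nonneg (2 * (x - 1)))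
      have a2 := mul_le_mul_of_nonneg_left (show x + 1 ≤ 3 * (x - 1) by linarith) x0
      linarith)
  have h0 := pow3 r l t (by positivity) x0 x0 k3 k4 (c' := κ * (2 * (x - 1))) (Or.inl (by
      have a1 := mul_le_mul_of_nonneg_right k0 x0
      linarith))
  obtain ⟨z1, z2⟩ := real_small (y := x + 1) (θ := κ ^ (l + t + r)) (Λ := 2 ^ t * (x + 1) ^ s)
    (p0 := p0) (p2 := p2) (by linarith) hL lo
    (by
      refine (mul_le_mul u0 u2 m2 (by positivity)).trans ((le_of_eq_of_le ?_ h02).trans_eq ?_)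
      · simp only [mul_pow, show x + 2 - 1 = x + 1 by ring]
        ring
      · have y0 : x + 1 ≠ 0 := by positivity
        generalize x + 1 = y at y0 ⊢
        generalize x - 1 = w
        simp only [mul_pow, ← pow_mul, mul_comm 2]
        simp only [pow_mul]
        field_simp
        ring)
    (by
      refine u0.trans ((le_of_eq_of_le ?_ h0).trans_eq ?_)
      · ring
      · simp only [mul_pow]
        field_simp
        ring)
    (one_le_mul_of_one_le_of_one_le (one_le_pow₀ one_le_two) (one_le_pow₀ (by linarith)))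
    (by positivity) hθ
  have z3 := pow_le_pow_left₀ z2 (show p1 - (x + 1) * p0 ≤ (x + 1) * f * b1 by linarith) 2
  have z4 := mul_le_mul g0 g2 (by positivity) m0
  have z5 : 0 ≤ (x + 1) * f ^ 2 * (b0 * b2) := by positivity
  exact lt_of_mul_lt_mul_left (a := ((x + 1) * f) ^ 2) (by linarith) (by positivity)

lemma numeric_small {n μ t s j : ℕ} (ht : t ≤ 2 * μ) (hs : s ≤ 2 * μ) (hj : 1 ≤ j)
    (hK : j < 60 * (2 * μ + 2)) (hn : 10 ^ 6 * (μ + 1) ^ 3 * (Nat.log 2 (μ + 1) + 1) ≤ n) :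
    (1 - 1 / ((j:ℝ) + 1) ^ 2) ^ n * (2 ^ t * ((j:ℝ) + 1) ^ s) ^ 2 * ((j:ℝ) + 1) ^ 2 < 1 := by
  have x1 : (1:ℝ) ≤ j := by exact_mod_cast hj
  have h1 : μ + 1 < 2 ^ (Nat.log 2 (μ + 1) + 1) := Nat.lt_pow_succ_log_self (by norm_num) _
  generalize Nat.log 2 (μ + 1) = L at *
  have h2 : j + 1 ≤ 2 ^ (8 * (L + 1)) := by
    calc j + 1 ≤ 2 ^ 7 * 2 ^ (L + 1) := by omega
      _ = 2 ^ (7 + (L + 1)) := (pow_add _ _ _).symm
      _ ≤ _ := Nat.pow_le_pow_right (by norm_num) (by omega)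
  have h3 : (j:ℝ) + 1 ≤ Real.exp (8 * (L + 1) : ℕ) := by
    calc (j:ℝ) + 1 ≤ 2 ^ (8 * (L + 1)) := by exact_mod_cast h2
      _ ≤ Real.exp 1 ^ (8 * (L + 1)) :=
          pow_le_pow_left₀ (by norm_num) (by linarith [Real.add_one_le_exp 1]) _
      _ = _ := by rw [← Real.exp_nat_mul, mul_one]
  have h4 : (2 ^ t * ((j:ℝ) + 1) ^ s) ^ 2 * ((j:ℝ) + 1) ^ 2
      ≤ Real.exp ((8 * (μ + 1) : ℕ) * (8 * (L + 1) : ℕ)) := by
    calc (2 ^ t * ((j:ℝ) + 1) ^ s) ^ 2 * ((j:ℝ) + 1) ^ 2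
        ≤ (((j:ℝ) + 1) ^ t * ((j:ℝ) + 1) ^ s) ^ 2 * ((j:ℝ) + 1) ^ 2 := by
          gcongr
          linarith
      _ = ((j:ℝ) + 1) ^ ((t + s) * 2 + 2) := by ring
      _ ≤ ((j:ℝ) + 1) ^ (8 * (μ + 1)) := pow_le_pow_right₀ (by linarith) (by omega)
      _ ≤ Real.exp (8 * (L + 1) : ℕ) ^ (8 * (μ + 1)) := pow_le_pow_left₀ (by linarith) h3 _
      _ = _ := (Real.exp_nat_mul _ _).symm
  have h5 : (1 - 1 / ((j:ℝ) + 1) ^ 2) ^ n ≤ Real.exp (n * (-(1 / ((j:ℝ) + 1) ^ 2))) := by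
    rw [Real.exp_nat_mul]
    exact pow_le_pow_left₀ (by linarith [(fac_small x1).1])
      (by linarith [Real.add_one_le_exp (-(1 / ((j:ℝ) + 1) ^ 2))]) _
  have h6 : (8 * (μ + 1)) * (8 * (L + 1)) * (j + 1) ^ 2 < n := by
    have a1 : (j + 1) ^ 2 ≤ (120 * (μ + 1)) ^ 2 := Nat.pow_le_pow_left (by omega) 2
    have a2 := Nat.mul_le_mul_left ((8 * (μ + 1)) * (8 * (L + 1))) a1
    have a3 : 0 < (μ + 1) ^ 3 * (L + 1) := by positivity
    have a4 : (8 * (μ + 1)) * (8 * (L + 1)) * (120 * (μ + 1)) ^ 2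
      = 921600 * ((μ + 1) ^ 3 * (L + 1)) := by ring
    rw [mul_assoc] at hn
    omega
  rw [mul_assoc]
  refine (mul_le_mul h5 h4 (by positivity) (Real.exp_pos _).le).trans_lt ?_
  rw [← Real.exp_add, Real.exp_lt_one_iff]
  have h7 : (((8 * (μ + 1) : ℕ):ℝ) * (8 * (L + 1) : ℕ)) * ((j:ℝ) + 1) ^ 2 < n := by
    exact_mod_cast h6
  rw [← lt_div_iff₀ (by positivity)] at h7
  have : (n:ℝ) * (-(1 / ((j:ℝ) + 1) ^ 2)) = -(n / ((j:ℝ) + 1) ^ 2) := by ring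
  linarith

lemma data_univ {G Y : SimpleGraph V} {μ : ℕ} (h : Few G Y μ) :
    ∃ l t s, t ≤ 2 * μ ∧ s ≤ 2 * μ ∧ Data G univ l t s :=
  exists_data h univ (2 * μ) fun W _ => by
    rcases W.eq_empty_or_nonempty with rfl | hW
    · simp [ap]
    · have := (h W).1
      have := (h W).2 hW
      omega

lemma col_of_ptn {G : SimpleGraph V} {k : ℕ} (h : 0 < (Ptn G k).ncard) : Nonempty (Col G k) :=
  (Nat.card_pos_iff.1 (h.trans_le (ptn_le G k))).1

theorem few_cycles (G : SimpleGraph V) {X : Set (Sym2 V)} {μ : ℕ} (hX : X.ncard ≤ μ)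
    (hF : (G.deleteEdges X).IsAcyclic)
    (hn : 10 ^ 6 * (μ + 1) ^ 3 * (Nat.log 2 (μ + 1) + 1) ≤ Fintype.card V) (j : ℕ)
    (hb : 0 < (Ptn G (j + 1)).ncard) :
    (Ptn G j).ncard * (Ptn G (j + 2)).ncard < (Ptn G (j + 1)).ncard ^ 2 := by
  obtain ⟨Y, h⟩ := exists_few hX hF
  by_cases hj : 60 * (2 * μ + 2) ≤ j
  · refine few_large h hj ?_
    by_contra hc
    rw [ptn_zero G (not_le.1 hc)] at hb
    exact lt_irrefl _ hb
  rcases Nat.eq_zero_or_pos (Ptn G j).ncard with h0 | h0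
  · rw [h0, zero_mul]
    positivity
  obtain ⟨c⟩ := col_of_ptn h0
  have hn0 : 10 ^ 6 * (0 + 1) ^ 3 * (Nat.log 2 (0 + 1) + 1) ≤ Fintype.card V := by
    refine le_trans ?_ hn
    have : 0 < (μ + 1) ^ 3 * (Nat.log 2 (μ + 1) + 1) := by positivity
    rw [mul_assoc, mul_assoc]
    simp only [zero_add, one_pow, Nat.log_one_right]
    omega
  rcases lt_trichotomy j 1 with h1 | h1 | h1
  · obtain rfl : j = 0 := by omega
    obtain ⟨v⟩ := Fintype.card_pos_iff.1 (show 0 < Fintype.card V by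
      refine lt_of_lt_of_le (by norm_num) hn0)
    exact (c.1 v).elim0
  · subst h1
    have hG : G = ⊥ := by
      ext u v
      exact iff_of_false (fun huv => c.2 u v huv (Subsingleton.elim _ _)) (by simp)
    obtain ⟨Y', h'⟩ := exists_few (G := G) (X := ∅) (μ := 0) (by simp) (by simp [hG])
    obtain ⟨l, t, s, ht, hs, hD⟩ := data_univ h'
    exact small hD le_rfl (Or.inr (by omega)) (col_of_ptn hb)
      (numeric_small ht hs le_rfl (by norm_num) hn0)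
  · obtain ⟨l, t, s, ht, hs, hD⟩ := data_univ h
    exact small hD h1.le (Or.inl h1) (col_of_ptn hb) (numeric_small ht hs h1.le (not_le.1 hj) hn)

end Pool.Agent.MP_ee26cf_co.LI
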