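import Pool.Agent.MP_ee26cf_co.LI.Chrom

set_option autoImplicit false

namespace Pool.Agent.MP_ee26cf_co.LI

open Finset Polynomial

variable {V : Type}

/-- The graph induced on `U`, with a new vertex joined to `A`; other vertices are isolated. -/
def aux (G : SimpleGraph V) (U A : Finset V) : SimpleGraph (Option V) where
  Adj a b := match a, b with
    | some u, some v => G.Adj u v ∧ u ∈ U ∧ v ∈ U
    | none, some v => v ∈ A
    | some u, none => u ∈ A
    | none, none => False
  symm := ⟨fun a b => by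
    cases a <;> cases b <;> simp [SimpleGraph.adj_comm]
    tauto⟩
  loopless := ⟨fun a => by cases a <;> simp⟩

/-- Proper colourings of `aux`, unfolded. -/
def Pr (G : SimpleGraph V) (U A : Finset V) {q : ℕ} (c : Option V → Fin q) : Prop :=
  (∀ u ∈ U, ∀ v ∈ U, G.Adj u v → c (some u) ≠ c (some v)) ∧ ∀ a ∈ A, c (some a) ≠ c none

lemma card_aux (G : SimpleGraph V) (U A : Finset V) (q : ℕ) :
    Nat.card (Col (aux G U A) q) = Nat.card {c : Option V → Fin q // Pr G U A c} := by
  refine Nat.card_congr (Equiv.subtypeEquivRight fun c => ⟨fun h => ⟨fun u hu v hv huv =>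
    h (some u) (some v) ⟨huv, hu, hv⟩, fun a ha => h (some a) none ha⟩, fun h a b hab => ?_⟩)
  cases a <;> cases b
  · exact hab.elim
  · exact (h.2 _ hab).symm
  · exact h.2 _ hab
  · exact h.1 _ hab.2.1 _ hab.2.2 hab.1

lemma card_split {α : Type} [Finite α] (p r : α → Prop) :
    Nat.card {c // p c} = Nat.card {c // p c ∧ ¬ r c} + Nat.card {c // p c ∧ r c} := by
  classical
  have := Fintype.ofFinite α
  simp only [Nat.card_eq_fintype_card, Fintype.card_subtype]
  rw [← Finset.filter_filter, ← Finset.filter_filter, add_comm,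
    Finset.card_filter_add_card_filter_not]

variable [Fintype V] [DecidableEq V]

open Classical in
/-- Neighbours of `u` inside `U`. -/
noncomputable def nb (G : SimpleGraph V) (U : Finset V) (u : V) : Finset V :=
  (U.erase u).filter (G.Adj u)

omit [Fintype V] in
lemma mem_nb {G : SimpleGraph V} {U : Finset V} {u v : V} :
    v ∈ nb G U u ↔ v ∈ U ∧ G.Adj u v := by
  simp only [nb, mem_filter, mem_erase]
  exact ⟨fun h => ⟨h.1.2, h.2⟩, fun h => ⟨⟨h.2.ne', h.1⟩, h.2⟩⟩

omit [Fintype V] in
lemma pr_erase {G : SimpleGraph V} {U A : Finset V} {u : V} (hu : u ∈ U) (hA : u ∉ A) {q : ℕ}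
    {c g : Option V → Fin q} (h0 : g none = c none) (h1 : c (some u) = c none)
    (h2 : ∀ v, v ≠ u → g (some v) = c (some v)) :
    Pr G U A c ↔ Pr G (U.erase u) (A ∪ nb G U u) g := by
  constructor
  · intro h
    refine ⟨fun a ha b hb hab => ?_, fun a ha => ?_⟩
    · rw [h2 a (mem_erase.1 ha).1, h2 b (mem_erase.1 hb).1]
      exact h.1 a (mem_erase.1 ha).2 b (mem_erase.1 hb).2 hab
    · rcases mem_union.1 ha with ha | ha
      · rw [h2 a (fun e => hA (e ▸ ha)), h0]
        exact h.2 a ha
      · rw [h2 a (mem_nb.1 ha).2.ne', h0, ← h1]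
        exact h.1 a (mem_nb.1 ha).1 u hu (mem_nb.1 ha).2.symm
  · intro h
    have key : ∀ b ∈ U, G.Adj u b → c (some b) ≠ c (some u) := fun b hb hub => by
      rw [h1, ← h0, ← h2 b hub.ne']
      exact h.2 b (mem_union_right _ (mem_nb.2 ⟨hb, hub⟩))
    refine ⟨fun a ha b hb hab => ?_, fun a ha => ?_⟩
    · by_cases e : a = u
      · subst e
        exact (key b hb hab).symm
      · by_cases e' : b = u
        · subst e'
          exact key a ha hab.symm
        · rw [← h2 a e, ← h2 b e']
          exact h.1 a (mem_erase.2 ⟨e, ha⟩) b (mem_erase.2 ⟨e', hb⟩) hab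
    · rw [← h2 a (fun e => hA (e ▸ ha)), ← h0]
      exact h.2 a (mem_union_left _ ha)

lemma rec_nat (G : SimpleGraph V) {U A : Finset V} {u : V} (hu : u ∈ U) (hA : u ∉ A) (q : ℕ) :
    q * Nat.card (Col (aux G U A) q) = q * Nat.card (Col (aux G U (insert u A)) q)
      + Nat.card (Col (aux G (U.erase u) (A ∪ nb G U u)) q) := by
  rw [card_aux, card_aux, card_aux, card_split (Pr G U A) (fun c => c (some u) = c none), mul_add]
  congr 1
  · congr 1
    refine Nat.card_congr (Equiv.subtypeEquivRight fun c => ?_)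
    simp only [Pr, mem_insert, forall_eq_or_imp]
    tauto
  · let e : Fin q × {c : Option V → Fin q // Pr G U A c ∧ c (some u) = c none} ≃
        {g : Option V → Fin q // Pr G (U.erase u) (A ∪ nb G U u) g} :=
      { toFun := fun x => ⟨Function.update x.2.1 (some u) x.1,
          (pr_erase hu hA (by simp) x.2.2.2 (fun v hv => by simp [hv])).1 x.2.2.1⟩
        invFun := fun g => (g.1 (some u), ⟨Function.update g.1 (some u) (g.1 none),
          (pr_erase hu hA (by simp) (by simp) (fun v hv => by simp [hv])).2 g.2, by simp⟩)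
        left_inv := fun x => by
          refine Prod.ext (by simp) (Subtype.ext ?_)
          simp [← x.2.2.2]
        right_inv := fun g => by
          refine Subtype.ext ?_
          simp }
    rw [← Nat.card_congr e, Nat.card_prod]
    simp

lemma swap_nat (G : SimpleGraph V) {U : Finset V} {u : V} (hu : u ∈ U) (q : ℕ) :
    Nat.card (Col (aux G U ∅) q) = Nat.card (Col (aux G (U.erase u) (nb G U u)) q) := by
  rw [card_aux, card_aux]
  refine Nat.card_congr (Equiv.subtypeEquiv
    (Equiv.arrowCongr (Equiv.swap none (some u)) (Equiv.refl _)) fun c => ?_)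
  have h := pr_erase (G := G) hu (notMem_empty u)
    (c := Function.update c none (c (some u)))
    (g := Equiv.arrowCongr (Equiv.swap none (some u)) (Equiv.refl _) c) (by simp) (by simp)
    (fun v hv => by simp [Equiv.swap_apply_of_ne_of_ne, hv])
  rw [empty_union] at h
  rw [← h]
  simp [Pr]

lemma univ_nat (G : SimpleGraph V) (q : ℕ) :
    Nat.card (Col (aux G univ ∅) q) = q * Nat.card (Col G q) := by
  rw [card_aux]
  let e : Fin q × Col G q ≃ {c : Option V → Fin q // Pr G univ ∅ c} :=
    { toFun := fun x => ⟨fun a => a.elim x.1 x.2.1, fun u _ v _ h => x.2.2 u v h, by simp⟩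
      invFun := fun c => (c.1 none, ⟨fun v => c.1 (some v),
        fun u v h => c.2.1 u (mem_univ _) v (mem_univ _) h⟩)
      left_inv := fun x => rfl
      right_inv := fun c => Subtype.ext (funext fun a => by cases a <;> rfl) }
  rw [← Nat.card_congr e, Nat.card_prod]
  simp

lemma empty_nat (G : SimpleGraph V) (q : ℕ) :
    Nat.card (Col (aux G ∅ ∅) q) = q ^ (Fintype.card V + 1) := by
  rw [card_aux, Nat.card_congr (Equiv.subtypeUnivEquiv (fun c => by simp [Pr]))]
  simp

omit [Fintype V] in
lemma induct {W : Finset V → Finset V → ℂ} {N : Finset V → V → Finset V} {z : ℂ} {D : ℕ}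
    (hD : 1 ≤ D) (hz : 7 * (D:ℝ) ≤ ‖z‖) (h0 : W ∅ ∅ ≠ 0)
    (hN : ∀ U u, N U u ⊆ U.erase u ∧ (N U u).card ≤ D)
    (h1 : ∀ U A u, u ∈ U → u ∉ A → z * W U A = z * W U (insert u A) + W (U.erase u) (A ∪ N U u))
    (h2 : ∀ U u, u ∈ U → W U ∅ = W (U.erase u) (N U u)) (U : Finset V) :
    W U ∅ ≠ 0 ∧ ∀ A ⊆ U, ‖W U A - W U ∅‖ ≤ ((1 + 1 / (3 * (D:ℝ))) ^ A.card - 1) * ‖W U ∅‖ := by
  have hD' : (1:ℝ) ≤ D := by exact_mod_cast hD
  have ha0 : 0 < 1 / (3 * (D:ℝ)) := by positivity
  have hpow : (1 + 1 / (3 * (D:ℝ))) ^ D ≤ 7 / 5 := by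
    calc (1 + 1 / (3 * (D:ℝ))) ^ D ≤ Real.exp (1 / (3 * (D:ℝ))) ^ D :=
          pow_le_pow_left₀ (by positivity) (by linarith [Real.add_one_le_exp (1 / (3 * (D:ℝ)))]) D
      _ = Real.exp (1 / 3) := by
          rw [← Real.exp_nat_mul]; congr 1; field_simp
      _ ≤ 7 / 5 := by
          refine le_of_pow_le_pow_left₀ (n := 3) (by norm_num) (by norm_num) ?_
          rw [← Real.exp_nat_mul]
          have e : ((3:ℕ):ℝ) * (1 / 3) = 1 := by norm_num
          rw [e]
          linarith [Real.exp_one_lt_d9]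
  have hza : 7 / 3 ≤ 1 / (3 * (D:ℝ)) * ‖z‖ := by
    have : 1 / (3 * (D:ℝ)) * (7 * D) = 7 / 3 := by field_simp
    rw [← this]
    exact mul_le_mul_of_nonneg_left hz ha0.le
  have hz0 : 0 < ‖z‖ := by linarith
  generalize 1 / (3 * (D:ℝ)) = a at *
  have h1a : 1 ≤ 1 + a := by linarith
  induction U using Finset.strongInduction with
  | H U ih =>
    have low : ∀ u ∈ U, W (U.erase u) ∅ ≠ 0 ∧ 3 / 5 * ‖W (U.erase u) ∅‖ ≤ ‖W U ∅‖ := by
      intro u hu
      obtain ⟨i1, i2⟩ := ih _ (erase_ssubset hu)
      refine ⟨i1, ?_⟩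
      have j1 := i2 _ (hN U u).1
      have j2 : (1 + a) ^ (N U u).card ≤ 7 / 5 := (pow_le_pow_right₀ h1a (hN U u).2).trans hpow
      have j3 := mul_le_mul_of_nonneg_right j2 (norm_nonneg (W (U.erase u) ∅))
      have j4 := norm_sub_norm_le (W (U.erase u) ∅) (W (U.erase u) (N U u))
      rw [norm_sub_rev] at j4
      rw [h2 U u hu]
      linarith
    constructor
    · rcases U.eq_empty_or_nonempty with rfl | ⟨u, hu⟩
      · exact h0
      · obtain ⟨i1, i2⟩ := low u hu
        have := norm_pos_iff.2 i1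
        exact norm_pos_iff.1 (by linarith)
    · intro A
      induction A using Finset.induction_on with
      | empty => intro _; simp
      | insert u A huA ihA =>
        intro hs
        have hu : u ∈ U := hs (mem_insert_self _ _)
        have hAU : A ⊆ U := (subset_insert _ _).trans hs
        have k1 := ihA hAU
        have k2 := (ih _ (erase_ssubset hu)).2 (A ∪ N U u) (union_subset
          (fun v hv => mem_erase.2 ⟨fun e => huA (e ▸ hv), hAU hv⟩) (hN U u).1)
        have k3 : (1 + a) ^ (A ∪ N U u).card ≤ (1 + a) ^ A.card * (7 / 5) := by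
          refine (pow_le_pow_right₀ h1a ((card_union_le _ _).trans
            (Nat.add_le_add_left (hN U u).2 _))).trans ?_
          rw [pow_add]
          exact mul_le_mul_of_nonneg_left hpow (by positivity)
        have k4 := mul_le_mul_of_nonneg_right k3 (norm_nonneg (W (U.erase u) ∅))
        have k5 := norm_sub_norm_le (W (U.erase u) (A ∪ N U u)) (W (U.erase u) ∅)
        have k6 : ‖z‖ * ‖W U (insert u A) - W U A‖ = ‖W (U.erase u) (A ∪ N U u)‖ := by
          rw [← norm_mul, ← norm_neg]
          congr 1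
          linear_combination h1 U A u hu huA
        have p0 : 0 ≤ (1 + a) ^ A.card := by positivity
        have k7 := mul_le_mul_of_nonneg_left (low u hu).2 p0
        have k8 := mul_le_mul_of_nonneg_left hza (mul_nonneg p0 (norm_nonneg (W U ∅)))
        have k9 : ‖W U (insert u A) - W U A‖ ≤ (1 + a) ^ A.card * a * ‖W U ∅‖ :=
          le_of_mul_le_mul_left (by linarith) hz0
        have k10 := norm_sub_le_norm_sub_add_norm_sub (W U (insert u A)) (W U A) (W U ∅)
        rw [card_insert_of_notMem huA, pow_succ]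
        linarith

/-- The roots of the chromatic polynomial lie in the disc of radius `7 D`. -/
theorem chrom_roots (G : SimpleGraph V) {D : ℕ} (hD : 1 ≤ D)
    (hG : ∀ v, (G.neighborSet v).ncard ≤ D) (z : ℂ) (hz : aeval z (chrom G) = 0) :
    ‖z‖ ≤ 7 * (D:ℝ) := by
  by_contra h
  have hz7 := (not_le.1 h).le
  have hD' : (1:ℝ) ≤ D := by exact_mod_cast hD
  have z0 : z ≠ 0 := norm_pos_iff.1 (by linarith)
  have key := (induct (W := fun U A => aeval z (chrom (aux G U A))) (N := nb G) hD hz7 ?_ ?_ ?_ ?_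
    univ).1
  · have e : chrom (aux G univ ∅) = X * chrom G := poly_ext fun q => by
      rw [eval_mul, eval_X, chrom_nat, chrom_nat, univ_nat, Nat.cast_mul]
    apply key
    simp only [e, map_mul, hz, mul_zero]
  · have e : chrom (aux G ∅ ∅) = X ^ (Fintype.card V + 1) := poly_ext fun q => by
      rw [eval_pow, eval_X, chrom_nat, empty_nat, Nat.cast_pow]
    simp only [e, map_pow, aeval_X]
    exact pow_ne_zero _ z0
  · intro U u
    refine ⟨fun v hv => mem_erase.2 ⟨(mem_nb.1 hv).2.ne', (mem_nb.1 hv).1⟩, le_trans ?_ (hG u)⟩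
    rw [← Set.ncard_coe_finset]
    exact Set.ncard_le_ncard (fun v hv => (mem_nb.1 hv).2) (Set.toFinite _)
  · intro U A u hu hA
    have e : X * chrom (aux G U A) = X * chrom (aux G U (insert u A))
        + chrom (aux G (U.erase u) (A ∪ nb G U u)) := poly_ext fun q => by
      rw [eval_add, eval_mul, eval_mul, eval_X, chrom_nat, chrom_nat, chrom_nat]
      exact_mod_cast rec_nat G hu hA q
    simpa using congrArg (aeval z) e
  · intro U u hu
    have e : chrom (aux G U ∅) = chrom (aux G (U.erase u) (nb G U u)) := poly_ext fun q => by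
      rw [chrom_nat, chrom_nat, swap_nat G hu]
    simp only [e]

end Pool.Agent.MP_ee26cf_co.LI
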