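import Pool.Agent.MP_ee26cf_co.LI.An
import Pool.Agent.MP_ee26cf_co.LI.Roots

set_option autoImplicit false

namespace Pool.Agent.MP_ee26cf_co.LI

open Finset

variable {V : Type} [Fintype V] [DecidableEq V]

theorem large (G : SimpleGraph V) {D j : ℕ} (hD : 1 ≤ D)
    (hG : ∀ v, (G.neighborSet v).ncard ≤ D) (hj : 60 * D ≤ j) (hn : j + 1 ≤ Fintype.card V) :
    (Ptn G j).ncard * (Ptn G (j + 2)).ncard < (Ptn G (j + 1)).ncard ^ 2 := by
  have h := poly_an hD hj (hn.trans (le_natDegree_chrom G)) (chrom_roots G hD hG)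
  rw [diff_chrom, diff_chrom, diff_chrom, Nat.factorial_succ (j + 1), Nat.factorial_succ j] at h
  push_cast at h
  have p : (0:ℝ) < ((j:ℝ) + 2) * (((j:ℝ) + 1) * j.factorial) ^ 2 := by positivity
  have h2 : (((Ptn G j).ncard : ℝ) * (Ptn G (j + 2)).ncard) < ((Ptn G (j + 1)).ncard : ℝ) ^ 2 :=
    lt_of_mul_lt_mul_left (by linarith) p.le
  exact_mod_cast h2

end Pool.Agent.MP_ee26cf_co.LI
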