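import Pool.Agent.MP_ee26cf_co.LI.Large

set_option autoImplicit false

namespace Pool.Agent.MP_ee26cf_co.LI

open Finset

variable {V : Type} [Fintype V] [DecidableEq V]

lemma ptn_of_surj' {G : SimpleGraph V} {m : ℕ} (c : V → Fin m)
    (hc : ∀ u v, G.Adj u v → c u ≠ c v) (hs : Function.Surjective c) :
    ∃ P : Ptn G m, ∀ u v, canon P u = canon P v ↔ c u = c v := by
  obtain ⟨P, hP, h⟩ := exists_ker G c hc
  choose g hg using cls_surj P
  have hb : Function.Bijective (fun s : P.parts => c (g s)) := by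
    constructor
    · intro s t hst
      rw [← hg s, ← hg t, cls_eq, h]
      exact hst
    · intro i
      obtain ⟨v, rfl⟩ := hs i
      exact ⟨cls P v, (h _ _).1 ((cls_eq P _ _).1 (hg _))⟩
  have hcard : P.parts.card = m := by simpa using Fintype.card_of_bijective hb
  exact ⟨⟨P, hcard, mem_Ind.1 hP⟩, fun u v => by rw [canon_eq]; exact h u v⟩

lemma canon_surj {G : SimpleGraph V} {k : ℕ} (P : Ptn G k) : Function.Surjective (canon P) :=
  (Finset.equivFinOfCardEq P.2.1).surjective.comp (cls_surj P.1)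

lemma canon_adj {G : SimpleGraph V} {k : ℕ} (P : Ptn G k) (u v : V) (huv : G.Adj u v) :
    canon P u ≠ canon P v := fun h =>
  P.2.2 _ (P.1.part_mem.2 (mem_univ v)) ((canon_eq P u v).1 h) (P.1.mem_part (mem_univ v))
    huv.ne huv

lemma split (G : SimpleGraph V) {k t : ℕ} (h : k * (t + 1) < Fintype.card V) :
    (Ptn G k).ncard * 2 ^ t ≤ (Ptn G (k + 1)).ncard * (k + 1) ^ 2 := by
  classical
  have big : ∀ P : Ptn G k, ∃ (y : Fin k) (e : Option (Option (Fin t)) ↪ V),
      ∀ i, canon P (e i) = y := fun P => by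
    obtain ⟨y, hy⟩ := Fintype.exists_lt_card_fiber_of_mul_lt_card (canon P) (n := t + 1)
      (by simpa using h)
    obtain ⟨e⟩ := Function.Embedding.nonempty_of_card_le (α := Option (Option (Fin t)))
      (β := {x // canon P x = y}) (by
        rw [Fintype.card_subtype]
        simpa using hy)
    exact ⟨y, e.trans (Function.Embedding.subtype _), fun i => (e i).2⟩
  choose y e he using big
  let S : Ptn G k × Finset (Fin t) → V → Prop := fun a v =>
    v = e a.1 none ∨ ∃ i ∈ a.2, v = e a.1 (some (some i))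
  have hS : ∀ a v, S a v → canon a.1 v = y a.1 := by
    rintro a v (rfl | ⟨i, _, rfl⟩) <;> exact he _ _
  have hS1 : ∀ a, ¬ S a (e a.1 (some none)) := fun a => by simp [S]
  have key := card_le_of_cover (A := Ptn G k × Finset (Fin t))
    (D := Ptn G (k + 1) × Fin (k + 1) × Fin (k + 1)) (Z := (V → V → Prop) × (V → Prop))
    (fun a => (fun u v => canon a.1 u = canon a.1 v, S a)) ?_
    (fun d => (fun u v => canon d.1 u = canon d.1 v ∨ ((canon d.1 u = d.2.1 ∨ canon d.1 u = d.2.2)
      ∧ (canon d.1 v = d.2.1 ∨ canon d.1 v = d.2.2)), fun v => canon d.1 v = d.2.1)) ?_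
  · rw [Nat.card_prod, Nat.card_prod, Nat.card_prod, Nat.card_coe_set_eq, Nat.card_coe_set_eq]
      at key
    simpa [sq] using key
  · rintro ⟨P, A⟩ ⟨Q, B⟩ hab
    obtain ⟨h1, h2⟩ := Prod.mk.inj hab
    have hPQ : P = Q := Subtype.ext (ptn_ext fun u v => by
      rw [← canon_eq, ← canon_eq]
      exact iff_of_eq (congrFun (congrFun h1 u) v))
    subst hPQ
    refine Prod.ext rfl (Finset.ext fun i => ?_)
    simpa [S] using congrFun h2 (e P (some (some i)))
  · intro a
    let c : V → Fin (k + 1) := fun v => if S a v then Fin.last k else (canon a.1 v).castSucc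
    have c1 : ∀ v, S a v → c v = Fin.last k := fun v hv => if_pos hv
    have c2 : ∀ v, ¬ S a v → c v = (canon a.1 v).castSucc := fun v hv => if_neg hv
    have c3 : ∀ u v, c u = c v ↔ (S a u ↔ S a v) ∧ canon a.1 u = canon a.1 v := fun u v => by
      by_cases hu : S a u <;> by_cases hv : S a v
      · simp [c1 u hu, c1 v hv, hu, hv, hS a u hu, hS a v hv]
      · simp [c1 u hu, c2 v hv, hu, hv, (Fin.castSucc_ne_last _).symm]
      · simp [c2 u hu, c1 v hv, hu, hv]
      · simp [c2 u hu, c2 v hv, hu, hv]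
    obtain ⟨Q, hQ⟩ := ptn_of_surj' (G := G) c
      (fun u v huv h => canon_adj a.1 u v huv ((c3 u v).1 h).2) (fun i => by
        induction i using Fin.lastCases with
        | last => exact ⟨e a.1 none, c1 _ (Or.inl rfl)⟩
        | cast i =>
          obtain ⟨v, rfl⟩ := canon_surj a.1 i
          by_cases hv : S a v
          · exact ⟨e a.1 (some none), by rw [c2 _ (hS1 a), he, hS a v hv]⟩
          · exact ⟨v, c2 v hv⟩)
    have s0 : S a (e a.1 none) := Or.inl rfl
    have q1 : ∀ v, canon Q v = canon Q (e a.1 none) ↔ S a v := fun v => by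
      rw [hQ, c3, he]
      exact ⟨fun h => h.1.2 s0, fun h => ⟨iff_of_true h s0, hS a v h⟩⟩
    have q2 : ∀ v, (canon Q v = canon Q (e a.1 none) ∨ canon Q v = canon Q (e a.1 (some none)))
        ↔ canon a.1 v = y a.1 := fun v => by
      rw [q1, hQ, c3, he]
      refine ⟨fun h => h.elim (hS a v) fun h => h.2, fun h => ?_⟩
      by_cases hv : S a v
      · exact Or.inl hv
      · exact Or.inr ⟨iff_of_false hv (hS1 a), h⟩
    refine ⟨(Q, canon Q (e a.1 none), canon Q (e a.1 (some none))), Prod.ext ?_ ?_⟩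
    · funext u v
      refine propext ?_
      simp only [q2]
      rw [hQ, c3]
      refine ⟨fun h => h.elim (fun h => h.2) fun h => h.1.trans h.2.symm, fun h => ?_⟩
      by_cases hu : canon a.1 u = y a.1
      · exact Or.inr ⟨hu, h ▸ hu⟩
      · exact Or.inl ⟨iff_of_false (fun h' => hu (hS a u h')) (fun h' => hu (h.trans (hS a v h'))),
          h⟩
    · funext v
      exact propext (q1 v)

lemma ptn_zero (G : SimpleGraph V) {k : ℕ} (h : Fintype.card V < k) : (Ptn G k).ncard = 0 := by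
  rw [Set.ncard_eq_zero (Set.toFinite _), Set.eq_empty_iff_forall_notMem]
  intro P hP
  have := P.card_parts_le_card
  rw [hP.1, card_univ] at this
  omega

lemma seq_uni (b : ℕ → ℕ) (K n : ℕ) (h1 : ∀ i, i < K → b i = 0 ∨ b i < b (i + 1))
    (h2 : ∀ j, K ≤ j → j + 1 ≤ n → b j * b (j + 2) < b (j + 1) ^ 2) (h3 : ∀ i, n < i → b i = 0) :
    ∃ m, (∀ i, i < m → b i = 0 ∨ b i < b (i + 1)) ∧ b (m + 1) ≤ b m ∧
      ∀ i, m < i → b (i + 1) = 0 ∨ b (i + 1) < b i := by
  classical
  have hex : ∃ m, K ≤ m ∧ b (m + 1) ≤ b m := ⟨K + n, by omega, by rw [h3 _ (by omega)]; omega⟩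
  refine ⟨Nat.find hex, fun i hi => ?_, (Nat.find_spec hex).2, ?_⟩
  · by_cases hK : i < K
    · exact h1 i hK
    · have := Nat.find_min hex hi
      omega
  · obtain ⟨hK, hm⟩ := Nat.find_spec hex
    generalize Nat.find hex = m at hK hm
    have step : ∀ j, m ≤ j → b (j + 1) ≤ b j → b (j + 2) = 0 ∨ b (j + 2) < b (j + 1) := by
      intro j hj hb
      by_cases hn : j + 1 ≤ n
      · right
        by_contra hc
        have := h2 j (by omega) hn
        have h4 : b (j + 1) * b (j + 1) ≤ b j * b (j + 2) := Nat.mul_le_mul hb (by omega)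
        rw [sq] at this
        omega
      · exact Or.inl (h3 _ (by omega))
    have all : ∀ j, m ≤ j → b (j + 1) ≤ b j := by
      intro j hj
      induction j, hj using Nat.le_induction with
      | base => exact hm
      | succ j hj ih =>
        have := step j hj ih
        show b (j + 2) ≤ b (j + 1)
        omega
    intro i hi
    obtain ⟨j, rfl⟩ : ∃ j, i = j + 1 := ⟨i - 1, by omega⟩
    exact step j (by omega) (all j (by omega))

theorem unimodal (G : SimpleGraph V) {D : ℕ} (hD : 1 ≤ D)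
    (hG : ∀ v, (G.neighborSet v).ncard ≤ D)
    (hn : 60 * D * (2 * Nat.log 2 (60 * D) + 3) ≤ Fintype.card V) :
    ∃ m, (∀ i, i < m → (Ptn G i).ncard = 0 ∨ (Ptn G i).ncard < (Ptn G (i + 1)).ncard) ∧
      (Ptn G (m + 1)).ncard ≤ (Ptn G m).ncard ∧
      ∀ i, m < i → (Ptn G (i + 1)).ncard = 0 ∨ (Ptn G (i + 1)).ncard < (Ptn G i).ncard := by
  refine seq_uni (fun i => (Ptn G i).ncard) (60 * D) (Fintype.card V) (fun i hi => ?_)
    (fun j h1 h2 => large G hD hG h1 h2) (fun i hi => ptn_zero G hi)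
  generalize 60 * D = K at hn hi
  have h1 := split G (k := i) (t := 2 * Nat.log 2 K + 2)
    (lt_of_lt_of_le (Nat.mul_lt_mul_of_pos_right hi (by omega)) hn)
  have h2 : (i + 1) ^ 2 < 2 ^ (2 * Nat.log 2 K + 2) := by
    have h3 : i + 1 < 2 ^ (Nat.log 2 K + 1) :=
      lt_of_le_of_lt hi (Nat.lt_pow_succ_log_self (by norm_num) K)
    calc (i + 1) ^ 2 < (2 ^ (Nat.log 2 K + 1)) ^ 2 := Nat.pow_lt_pow_left h3 (by norm_num)
      _ = _ := by ring
  rcases Nat.eq_zero_or_pos (Ptn G i).ncard with h0 | h0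
  · exact Or.inl h0
  · right
    by_contra hc
    have h4 := Nat.mul_le_mul_right ((i + 1) ^ 2) (not_lt.1 hc)
    have h5 := Nat.mul_lt_mul_of_pos_left h2 h0
    omega

end Pool.Agent.MP_ee26cf_co.LI
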